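import Pool.Agent.W978.QP.Stm

/-! Project QP, part NUL: the Nullstellensatz (port of Pool.Agent.W571.QN.Nst). -/

set_option autoImplicit false

namespace Pool.Agent.W249.QPNUL

open MvPolynomial Pool.Agent.W978.QP
open Pool.Agent.W978.QN (mnr)

/-- the minors as polynomials -/
noncomputable def mm (b : Fin 2 → Fin 3 → Fin 3 → ℤ) (t : Fin 3 × Fin 3 × Fin 3 × Fin 3) :
    MvPolynomial (Fin 2) ℚ :=
  mnr (mp b X) t.1 t.2.1 t.2.2.1 t.2.2.2

theorem aeval_mm {A : Type*} [CommRing A] [Algebra ℚ A] (b : Fin 2 → Fin 3 → Fin 3 → ℤ)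
    (t : Fin 3 × Fin 3 × Fin 3 × Fin 3) (x : Fin 2 → A) :
    aeval x (mm b t) = mnr (mp b x) t.1 t.2.1 t.2.2.1 t.2.2.2 := by
  simp [mm, mnr, mp, map_sub, map_mul, map_sum]

theorem denom (f : MvPolynomial (Fin 2) ℚ) : ∃ D : ℕ, 1 ≤ D ∧ ∀ p : Fin 2 → ℤ, ∃ n : ℤ,
    (D : ℚ) * aeval (fun i => (p i : ℚ)) f = n := by
  induction f using MvPolynomial.induction_on' with
  | monomial u a =>
    refine ⟨a.den, a.pos, fun p => ⟨a.num * u.prod fun i k => p i ^ k, ?_⟩⟩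
    rw [aeval_monomial, ← mul_assoc]
    push_cast
    congr 1
    rw [mul_comm]
    exact Rat.mul_den_eq_num a
  | add f₁ f₂ h1 h2 =>
    obtain ⟨D1, hD1, h1⟩ := h1
    obtain ⟨D2, hD2, h2⟩ := h2
    refine ⟨D1 * D2, Nat.mul_pos hD1 hD2, fun p => ?_⟩
    obtain ⟨n1, e1⟩ := h1 p
    obtain ⟨n2, e2⟩ := h2 p
    refine ⟨D2 * n1 + D1 * n2, ?_⟩
    rw [map_add]
    push_cast
    rw [← e1, ← e2]
    ring

theorem power (b : Fin 2 → Fin 3 → Fin 3 → ℤ) (hb : Rk2 b) (i : Fin 2) :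
    ∃ (D N : ℕ), 1 ≤ D ∧ ∀ p : Fin 2 → ℤ, ∀ g z : ℤ,
      (∀ k k' j j', g ∣ mnr (mp b p) k k' j j' * z) → g ∣ (D : ℤ) * z * p i ^ N := by
  set I : Ideal (MvPolynomial (Fin 2) ℚ) := Ideal.span (Set.range (mm b)) with hI
  have h1 : (X i : MvPolynomial (Fin 2) ℚ) ∈ I.radical := by
    rw [← vanishingIdeal_zeroLocus_eq_radical (K := ℂ) I, mem_vanishingIdeal_iff]
    intro x hx
    rw [hI, zeroLocus_span] at hx
    by_cases hx0 : x = 0
    · rw [hx0, aeval_X, Pi.zero_apply]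
    · exfalso
      obtain ⟨k, k', j, j', h⟩ := hb x hx0
      refine h ?_
      have h2 := hx (mm b (k, k', j, j')) ⟨_, rfl⟩
      rw [aeval_mm] at h2
      exact h2
  obtain ⟨N, hN⟩ := Ideal.mem_radical_iff.1 h1
  rw [hI, Ideal.mem_span_range_iff_exists_fun] at hN
  obtain ⟨c, hc⟩ := hN
  choose D hD hDn using fun t => denom (c t)
  refine ⟨∏ t, D t, N, Nat.one_le_iff_ne_zero.2 (Finset.prod_pos fun t _ => hD t).ne',
    fun p g z hg => ?_⟩
  choose n hn using fun t => hDn t p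
  have h3 : ∀ t, ∃ e : ℕ, ∏ t, D t = D t * e := fun t =>
    Finset.dvd_prod_of_mem D (Finset.mem_univ t)
  choose e he using h3
  have h4 : ((∏ t, D t : ℕ) : ℤ) * p i ^ N =
      ∑ t, (e t * n t) * mnr (mp b p) t.1 t.2.1 t.2.2.1 t.2.2.2 := by
    have h5 := congrArg (aeval (fun i => (p i : ℚ))) hc
    rw [map_sum, map_pow, aeval_X] at h5
    have h6 : (((∏ t, D t : ℕ) : ℤ) : ℚ) * (p i : ℚ) ^ N =
        ∑ t, ((e t : ℚ) * n t) * ((mnr (mp b p) t.1 t.2.1 t.2.2.1 t.2.2.2 : ℤ) : ℚ) := by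
      rw [← h5, Finset.mul_sum]
      refine Finset.sum_congr rfl fun t _ => ?_
      rw [map_mul, aeval_mm, ← hn t, he t]
      have h7 : ((mnr (mp b p) t.1 t.2.1 t.2.2.1 t.2.2.2 : ℤ) : ℚ) =
          mnr (mp b fun i => (p i : ℚ)) t.1 t.2.1 t.2.2.1 t.2.2.2 := by
        simp [mnr, mp]
      rw [h7]
      push_cast
      ring
    have h8 : ((((∏ t, D t : ℕ) : ℤ) * p i ^ N : ℤ) : ℚ) =
      ((∑ t, (e t * n t) * mnr (mp b p) t.1 t.2.1 t.2.2.1 t.2.2.2 : ℤ) : ℚ) := by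
      rw [Int.cast_mul, Int.cast_pow, h6, Int.cast_sum]
      refine Finset.sum_congr rfl fun t _ => ?_
      rw [Int.cast_mul, Int.cast_mul, Int.cast_natCast]
    exact_mod_cast h8
  rw [mul_right_comm, h4, Finset.sum_mul]
  refine Finset.dvd_sum fun t _ => ?_
  rw [mul_assoc]
  exact Dvd.dvd.mul_left (hg _ _ _ _) _

theorem nul : S_NUL := by
  intro b hb
  choose D N hD h using power b hb
  refine ⟨∏ i, D i, Nat.one_le_iff_ne_zero.2 (Finset.prod_pos fun i _ => hD i).ne',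
    fun p hp g z hg => ?_⟩
  obtain ⟨u, v, huv⟩ := hp
  set J : Ideal ℤ := Submodule.comap (LinearMap.mulLeft ℤ (((∏ i, D i : ℕ) : ℤ) * z))
    (Ideal.span {g}) with hJ
  have hmem : ∀ x : ℤ, x ∈ J ↔ g ∣ ((∏ i, D i : ℕ) : ℤ) * z * x := by
    intro x
    rw [hJ, Submodule.mem_comap, LinearMap.mulLeft_apply, Ideal.mem_span_singleton]
  have h1 : ∀ i, p i ∈ J.radical := by
    intro i
    refine Ideal.mem_radical_iff.2 ⟨N i, ?_⟩
    rw [hmem]
    obtain ⟨e, he⟩ : D i ∣ ∏ i, D i := Finset.dvd_prod_of_mem D (Finset.mem_univ i)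
    rw [he]
    have h2 := h i p g z hg
    have h3 : (((D i * e : ℕ) : ℤ) * z * p i ^ N i) = e * ((D i : ℤ) * z * p i ^ N i) := by
      push_cast
      ring
    rw [h3]
    exact Dvd.dvd.mul_left h2 _
  have h2 : (1 : ℤ) ∈ J.radical := by
    rw [← huv]
    exact Ideal.add_mem _ (Ideal.mul_mem_left _ _ (h1 0)) (Ideal.mul_mem_left _ _ (h1 1))
  obtain ⟨n, hn⟩ := Ideal.mem_radical_iff.1 h2
  rw [one_pow, hmem, mul_one] at hn
  exact hn

end Pool.Agent.W249.QPNUL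

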