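import Pool.Agent.W229.V.Stmts

set_option autoImplicit false

namespace Pool.Agent.W249.VA4

open Module Pool.Agent.W229.V

/-- counting by fibres -/
theorem count_fibres {β γ : Type*} (X : Set β) (t : β → γ) (T : Finset γ) (n : ℕ)
    (ht : ∀ x ∈ X, t x ∈ T)
    (hf : ∀ x₀ ∈ X, {x ∈ X | t x = t x₀}.Finite ∧ Set.ncard {x ∈ X | t x = t x₀} ≤ n) :
    X.Finite ∧ X.ncard ≤ n * T.card := by
  classical
  have hfin : X.Finite := by
    refine Set.Finite.of_finite_fibers t (T.finite_toSet.subset ?_) ?_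
    · rintro _ ⟨x, hx, rfl⟩
      exact ht x hx
    · rintro _ ⟨x, hx, rfl⟩
      exact (hf x hx).1.subset (by
        rintro y ⟨hy, hy'⟩
        exact ⟨hy, hy'⟩)
  refine ⟨hfin, ?_⟩
  rw [Set.ncard_eq_toFinset_card X hfin]
  have h1 : hfin.toFinset.card ≤ n * (hfin.toFinset.image t).card := by
    refine Finset.card_le_mul_card_image _ n ?_
    intro b hb
    obtain ⟨x, hx, rfl⟩ := Finset.mem_image.mp hb
    have hx' : x ∈ X := by simpa using hx
    refine le_trans (le_of_eq ?_) (hf x hx').2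
    rw [← Set.ncard_coe_finset]
    congr 1
    ext y
    simp
  refine h1.trans (Nat.mul_le_mul_left _ (Finset.card_le_card ?_))
  intro b hb
  obtain ⟨x, hx, rfl⟩ := Finset.mem_image.mp hb
  exact ht x (by simpa using hx)

variable {k : Type} [Field k] [NumberField k]

theorem le_of_mono {n r m : ℕ} (K₁ K₂ : IntermediateField k (AlgebraicClosure k))
    [NumberField K₁] (h₁ : finrank ℚ K₁ = n)
    (α₁ : Fin r → K₁) (α₂ : Fin r → K₂)
    (hl : LinearIndependent ℚ (fun l : Fin n => mono m α₁ l))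
    (he : ∀ j, (α₁ j : AlgebraicClosure k) = α₂ j) : K₁ ≤ K₂ := by
  intro x hx
  have hspan := hl.span_eq_top_of_card_eq_finrank' (by simpa using h₁.symm)
  have hm : (⟨x, hx⟩ : K₁) ∈ Submodule.span ℚ (Set.range fun l : Fin n => mono m α₁ l) := by
    rw [hspan]; trivial
  obtain ⟨c, hc⟩ := (Submodule.mem_span_range_iff_exists_fun ℚ).mp hm
  have hc' : x = ∑ l : Fin n, (c l) • ((mono m α₁ l : K₁) : AlgebraicClosure k) := by
    have := congrArg (fun z : K₁ => (z : AlgebraicClosure k)) hc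
    simp only at this
    rw [← this]
    simp [Algebra.smul_def]
  rw [hc']
  refine Subalgebra.sum_mem _ ?_
  intro l _
  have : ((mono m α₁ l : K₁) : AlgebraicClosure k) = ((mono m α₂ l : K₂) : AlgebraicClosure k) := by
    simp [mono, he]
  rw [this]
  rw [Algebra.smul_def]
  have h2 : (algebraMap ℚ (AlgebraicClosure k)) (c l) = ((c l : K₂) : AlgebraicClosure k) := by
    simp
  rw [h2]
  exact K₂.mul_mem (SetLike.coe_mem _) (SetLike.coe_mem _)

theorem trace_bound {r m n : ℕ} (K : Type) [Field K] [NumberField K] (hn : finrank ℚ K = n)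
    (α : Fin r → NumberField.RingOfIntegers K) (L : ℝ) (hL : 1 ≤ L)
    (h : ∀ j (σ : K →+* ℂ), ‖σ (α j)‖ ≤ L) (e : Fin r → Fin (2 * m)) :
    |((Algebra.trace ℤ (NumberField.RingOfIntegers K) (∏ j, α j ^ (e j : ℕ)) : ℤ) : ℝ)| ≤
      n * L ^ (2 * m * r) := by
  have h1 : ((Algebra.trace ℤ (NumberField.RingOfIntegers K) (∏ j, α j ^ (e j : ℕ)) : ℤ) : ℂ) =
      ∑ σ : K →ₐ[ℚ] ℂ, σ ((∏ j, α j ^ (e j : ℕ) : NumberField.RingOfIntegers K) : K) := by
    rw [← trace_eq_sum_embeddings ℂ, ← Algebra.coe_trace_int]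
    simp
  have h2 : |((Algebra.trace ℤ (NumberField.RingOfIntegers K) (∏ j, α j ^ (e j : ℕ)) : ℤ) : ℝ)| =
      ‖((Algebra.trace ℤ (NumberField.RingOfIntegers K) (∏ j, α j ^ (e j : ℕ)) : ℤ) : ℂ)‖ := by
    rw [Complex.norm_intCast]
  rw [h2, h1]
  refine (norm_sum_le _ _).trans ?_
  have h3 : ∀ σ : K →ₐ[ℚ] ℂ, ‖σ ((∏ j, α j ^ (e j : ℕ) : NumberField.RingOfIntegers K) : K)‖ ≤
      L ^ (2 * m * r) := by
    intro σ
    have h5 : ((∏ j, α j ^ (e j : ℕ) : NumberField.RingOfIntegers K) : K) =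
        ∏ j, (α j : K) ^ (e j : ℕ) := by
      simp [map_prod]
    rw [h5, map_prod, norm_prod]
    calc ∏ j, ‖σ ((α j : K) ^ (e j : ℕ))‖
        ≤ ∏ _j : Fin r, L ^ (2 * m) := by
          refine Finset.prod_le_prod (fun _ _ => norm_nonneg _) ?_
          intro j _
          rw [map_pow, norm_pow]
          refine (pow_le_pow_left₀ (norm_nonneg _) (h j (σ : K →+* ℂ)) _).trans ?_
          exact pow_le_pow_right₀ hL (e j).2.le
      _ = L ^ (2 * m * r) := by simp [pow_mul]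
  refine (Finset.sum_le_sum fun σ _ => h3 σ).trans ?_
  simp only [Finset.sum_const, nsmul_eq_mul]
  have h4 : (Finset.univ : Finset (K →ₐ[ℚ] ℂ)).card = n := by
    rw [Finset.card_univ, AlgHom.card ℚ K ℂ, hn]
  rw [h4]


theorem embedding_exists : Nonempty (AlgebraicClosure k →+* ℂ) := by
  have : Algebra.IsAlgebraic ℚ (AlgebraicClosure k) := Algebra.IsAlgebraic.trans ℚ k _
  exact ⟨((IsAlgClosed.lift : AlgebraicClosure k →ₐ[ℚ] ℂ) : AlgebraicClosure k →+* ℂ)⟩

theorem fields_count (h1 : TaskA1) (h2 : TaskA2) (h3 : TaskA3) (r m n : ℕ) (hnm : n ≤ m ^ r) :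
    ∃ C₂ : ℝ, 1 ≤ C₂ ∧ ∀ (k : Type) [Field k] [NumberField k] (S : ℝ), 1 ≤ S →
    {K : IntermediateField k (AlgebraicClosure k) | ∃ _ : NumberField K,
        finrank ℚ K = n ∧ |(NumberField.discr K : ℝ)| ≤ S}.Finite ∧
    (Set.ncard {K : IntermediateField k (AlgebraicClosure k) | ∃ _ : NumberField K,
        finrank ℚ K = n ∧ |(NumberField.discr K : ℝ)| ≤ S} : ℝ) ≤
      n * (2 * (n * (C₂ * (169 * S ^ (2 / (n : ℝ)))) ^ (2 * m * r)) + 1) ^ ((2 * m) ^ r) := by
  classical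
  obtain ⟨C₂, hC₂, hA2⟩ := h2 n r m hnm
  refine ⟨C₂, hC₂, ?_⟩
  intro k _ _ S hS
  obtain ⟨ι⟩ := embedding_exists (k := k)
  set X : Set (IntermediateField k (AlgebraicClosure k)) :=
    {K : IntermediateField k (AlgebraicClosure k) | ∃ _ : NumberField K,
        finrank ℚ K = n ∧ |(NumberField.discr K : ℝ)| ≤ S} with hX
  set L : ℝ := C₂ * (169 * S ^ (2 / (n : ℝ))) with hL
  have hL1 : 1 ≤ L := by
    have : (1 : ℝ) ≤ S ^ (2 / (n : ℝ)) := Real.one_le_rpow hS (by positivity)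
    nlinarith
  have key : ∀ K : X, ∃ (_ : NumberField K.1) (α : Fin r → NumberField.RingOfIntegers K.1),
      finrank ℚ K.1 = n ∧ (∀ j (σ : K.1 →+* ℂ), ‖σ (α j)‖ ≤ L) ∧
      LinearIndependent ℚ (fun l : Fin n => mono m (fun j => (α j : K.1)) l) := by
    rintro ⟨K, hK, hKn, hKS⟩
    obtain ⟨ω, hω, hω'⟩ := h1 K
    subst hKn
    obtain ⟨α, hα, hα'⟩ := hA2 K rfl ω hω (169 * S ^ (2 / (finrank ℚ K : ℝ))) (by
      intro i σ
      refine (hω' i σ).trans ?_
      refine mul_le_mul_of_nonneg_left ?_ (by norm_num)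
      exact Real.rpow_le_rpow (abs_nonneg _) hKS (by positivity))
    exact ⟨hK, α, rfl, hα, hα'⟩
  choose nfK α hfr hα hind using key
  set B : ℕ := ⌊(n : ℝ) * L ^ (2 * m * r)⌋₊ with hB
  have hBle : (B : ℝ) ≤ (n : ℝ) * L ^ (2 * m * r) := Nat.floor_le (by positivity)
  have hcount := count_fibres (β := X) Set.univ
    (fun K : X => fun e : Fin r → Fin (2 * m) =>
      Algebra.trace ℤ (NumberField.RingOfIntegers K.1) (∏ j, α K j ^ (e j : ℕ)))
    (Fintype.piFinset fun _ => Finset.Icc (-(B : ℤ)) B) n ?_ ?_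
  · obtain ⟨hf, hc⟩ := hcount
    have hfX : Finite X := Set.finite_univ_iff.mp hf
    refine ⟨Set.toFinite X, ?_⟩
    have h5 : X.ncard = (Set.univ : Set X).ncard := by
      rw [Set.ncard_univ]; rfl
    rw [h5]
    rw [Fintype.card_piFinset, Finset.prod_const, Int.card_Icc, Finset.card_univ,
      Fintype.card_fun, Fintype.card_fin, Fintype.card_fin] at hc
    have h6 : ((B : ℤ) + 1 - (-(B : ℤ))).toNat = 2 * B + 1 := by omega
    rw [h6] at hc
    have h7 : ((Set.univ : Set X).ncard : ℝ) ≤ ((n * (2 * B + 1) ^ ((2 * m) ^ r) : ℕ) : ℝ) := by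
      exact_mod_cast hc
    refine h7.trans ?_
    push_cast
    refine mul_le_mul_of_nonneg_left ?_ (by positivity)
    refine pow_le_pow_left₀ (by positivity) ?_ _
    linarith
  · intro K _
    have := nfK K
    rw [Fintype.mem_piFinset]
    intro e
    have h8 := trace_bound K.1 (hfr K) (α K) L hL1 (hα K) e
    rw [Finset.mem_Icc]
    generalize Algebra.trace ℤ (NumberField.RingOfIntegers K.1) (∏ j, α K j ^ (e j : ℕ)) = z
      at h8
    have h10 : (z.natAbs : ℝ) ≤ (n : ℝ) * L ^ (2 * m * r) := by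
      rw [Nat.cast_natAbs, Int.cast_abs]
      exact h8
    have h12 := Nat.le_floor h10
    rw [← hB] at h12
    omega
  · intro K₀ _
    have := nfK K₀
    set F : Set X := {K ∈ (Set.univ : Set X) | (fun e : Fin r → Fin (2 * m) =>
      Algebra.trace ℤ (NumberField.RingOfIntegers K.1) (∏ j, α K j ^ (e j : ℕ))) =
      (fun e : Fin r → Fin (2 * m) =>
      Algebra.trace ℤ (NumberField.RingOfIntegers K₀.1) (∏ j, α K₀ j ^ (e j : ℕ)))} with hF
    have h14 : ∀ K : X, K ∈ F → ∃ τ' : K₀.1 →+* ℂ, ∀ j,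
        ι ((α K j : K.1) : AlgebraicClosure k) = τ' (α K₀ j) := by
      intro K hK
      have := nfK K
      refine h3 n r m K.1 K₀.1 hnm (hfr K) (hfr K₀) (fun j => (α K j : K.1))
        (fun j => (α K₀ j : K₀.1)) (hind K) (hind K₀) ?_
        (ι.comp (algebraMap K.1 (AlgebraicClosure k)))
      intro e he
      have h15 := congrFun hK.2 (fun j => ⟨e j, he j⟩)
      have h16 : ((Algebra.trace ℤ (NumberField.RingOfIntegers K.1)
          (∏ j, α K j ^ (e j)) : ℤ) : ℚ) = ((Algebra.trace ℤ (NumberField.RingOfIntegers K₀.1)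
          (∏ j, α K₀ j ^ (e j)) : ℤ) : ℚ) := by
        exact_mod_cast h15
      rw [Algebra.coe_trace_int, Algebra.coe_trace_int] at h16
      simpa [map_prod] using h16
    choose! f hf using h14
    have hinj : Set.InjOn f F := by
      intro K₁ hK₁ K₂ hK₂ h12
      have h17 : ∀ j, ((α K₁ j : K₁.1) : AlgebraicClosure k) = ((α K₂ j : K₂.1) :
          AlgebraicClosure k) := by
        intro j
        apply ι.injective
        rw [hf K₁ hK₁, hf K₂ hK₂, h12]
      have := nfK K₁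
      have := nfK K₂
      apply Subtype.ext
      exact le_antisymm (le_of_mono K₁.1 K₂.1 (hfr K₁) _ _ (hind K₁) h17)
        (le_of_mono K₂.1 K₁.1 (hfr K₂) _ _ (hind K₂) fun j => (h17 j).symm)
    refine ⟨Set.Finite.of_injOn (t := Set.univ) (fun _ _ => Set.mem_univ _) hinj
      Set.finite_univ, ?_⟩
    refine (Set.ncard_le_ncard_of_injOn f (t := Set.univ) (fun _ _ => Set.mem_univ _) hinj
      Set.finite_univ).trans ?_
    rw [Set.ncard_univ, Nat.card_eq_fintype_card, NumberField.Embeddings.card, hfr K₀]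

theorem taskA4 (h1 : TaskA1) (h2 : TaskA2) (h3 : TaskA3) : TaskA4 := by
  intro r hr
  refine ⟨8 * r * 4 ^ r, by positivity, ?_⟩
  intro n
  rcases Nat.eq_zero_or_pos n with rfl | hn
  · refine ⟨0, fun k _ _ S hS => ?_⟩
    have hE : {K : IntermediateField k (AlgebraicClosure k) | ∃ _ : NumberField K,
        finrank ℚ K = 0 ∧ |(NumberField.discr K : ℝ)| ≤ S} = ∅ := by
      ext K
      simp only [Set.mem_ofPred_eq, Set.mem_empty_iff_false, iff_false]
      rintro ⟨hK, h0, -⟩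
      have := Module.finrank_pos (R := ℚ) (M := K)
      omega
    rw [hE]
    simp
  set y : ℝ := (n : ℝ) ^ (1 / (r : ℝ)) with hy
  have hn1 : (1 : ℝ) ≤ n := by exact_mod_cast hn
  have hr0 : (r : ℝ) ≠ 0 := by positivity
  have hy1 : 1 ≤ y := Real.one_le_rpow hn1 (by positivity)
  have hyr : y ^ r = n := by
    rw [hy, ← Real.rpow_natCast, ← Real.rpow_mul (by positivity), one_div,
      inv_mul_cancel₀ hr0, Real.rpow_one]
  set m : ℕ := ⌈y⌉₊ with hm
  have hm1 : y ≤ m := Nat.le_ceil y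
  have hm2 : (m : ℝ) ≤ 2 * y := by
    have := Nat.ceil_lt_add_one (by positivity : 0 ≤ y)
    linarith
  have hnm : n ≤ m ^ r := by
    have : (n : ℝ) ≤ (m : ℝ) ^ r := by
      rw [← hyr]; exact pow_le_pow_left₀ (by positivity) hm1 _
    exact_mod_cast this
  obtain ⟨C₂, hC₂, H⟩ := fields_count h1 h2 h3 r m n hnm
  refine ⟨n * (3 * (n * (C₂ * 169) ^ (2 * m * r))) ^ ((2 * m) ^ r), fun k _ _ S hS => ?_⟩
  obtain ⟨hf, hc⟩ := H k S hS
  refine ⟨hf, hc.trans ?_⟩
  have hS0 : 0 < S := by linarith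
  have hx : (n : ℝ) * (C₂ * (169 * S ^ (2 / (n : ℝ)))) ^ (2 * m * r) =
      (n * (C₂ * 169) ^ (2 * m * r)) * S ^ ((2 / (n : ℝ)) * ((2 * m * r : ℕ) : ℝ)) := by
    rw [Real.rpow_mul hS0.le, Real.rpow_natCast]
    ring
  rw [hx]
  set A : ℝ := n * (C₂ * 169) ^ (2 * m * r) with hA
  set B : ℝ := S ^ ((2 / (n : ℝ)) * ((2 * m * r : ℕ) : ℝ)) with hB
  have hA1 : 1 ≤ A := by
    have h1 : (1 : ℝ) ≤ (C₂ * 169) ^ (2 * m * r) := one_le_pow₀ (by linarith)
    nlinarith
  have hB1 : 1 ≤ B := Real.one_le_rpow hS (by positivity)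
  have h20 : 2 * (A * B) + 1 ≤ 3 * A * B := by nlinarith
  calc (n : ℝ) * (2 * (A * B) + 1) ^ ((2 * m) ^ r)
      ≤ n * (3 * A * B) ^ ((2 * m) ^ r) := by
        refine mul_le_mul_of_nonneg_left ?_ (by positivity)
        exact pow_le_pow_left₀ (by positivity) h20 _
    _ = n * (3 * A) ^ ((2 * m) ^ r) * B ^ ((2 * m) ^ r) := by
        rw [mul_pow]; ring
    _ ≤ n * (3 * A) ^ ((2 * m) ^ r) * S ^ (8 * r * 4 ^ r * y) := by
        refine mul_le_mul_of_nonneg_left ?_ (by positivity)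
        rw [hB, ← Real.rpow_natCast, ← Real.rpow_mul hS0.le]
        refine Real.rpow_le_rpow_of_exponent_le hS ?_
        push_cast
        have h21 : (2 * (m : ℝ)) ^ r ≤ 4 ^ r * n := by
          rw [← hyr, ← mul_pow]
          exact pow_le_pow_left₀ (by positivity) (by linarith) _
        calc 2 / (n : ℝ) * (2 * m * r) * (2 * m) ^ r
            ≤ 2 / (n : ℝ) * (2 * (2 * y) * r) * (4 ^ r * n) := by
              refine mul_le_mul ?_ h21 (by positivity) (by positivity)
              refine mul_le_mul_of_nonneg_left ?_ (by positivity)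
              refine mul_le_mul_of_nonneg_right ?_ (by positivity)
              linarith
          _ = 8 * r * 4 ^ r * y := by
              field_simp
              ring

end Pool.Agent.W249.VA4
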