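import Pool.Agent.W249.EFa

set_option autoImplicit false

namespace Pool.Agent.W249.EF

open Polynomial Finset
open scoped Classical
set_option linter.unusedSectionVars false

/-- monic irreducible polynomials of degree `l` -/
noncomputable def IR (r : ℕ) [Fact r.Prime] (l : ℕ) : Finset (ZMod r)[X] :=
  (PF (ZMod r) (l + 1)).filter (fun P => P.Monic ∧ Irreducible P ∧ P.natDegree = l)

theorem mem_IR {r : ℕ} [Fact r.Prime] {l : ℕ} {P : (ZMod r)[X]} :
    P ∈ IR r l ↔ P.Monic ∧ Irreducible P ∧ P.natDegree = l := by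
  unfold IR
  rw [Finset.mem_filter, mem_PF]
  constructor
  · exact fun h => h.2
  · intro h
    refine ⟨?_, h⟩
    rw [← natDegree_lt_iff_degree_lt h.1.ne_zero, h.2.2]
    omega

theorem card_IR (r : ℕ) [Fact r.Prime] (l : ℕ) (hl : l.Prime) :
    r ^ l - r ≤ l * (IR r l).card := by
  haveI : Fact l.Prime := ⟨hl⟩
  let L := GaloisField r l
  haveI : Fintype L := Fintype.ofFinite L
  have hfr : Module.finrank (ZMod r) L = l := GaloisField.finrank r hl.ne_zero
  have hcard : Fintype.card L = r ^ l := by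
    rw [← Nat.card_eq_fintype_card]
    exact GaloisField.card r l hl.ne_zero
  let R : Finset L := Finset.univ.image (algebraMap (ZMod r) L)
  have hR : R.card ≤ r := by
    calc R.card ≤ (Finset.univ : Finset (ZMod r)).card := Finset.card_image_le
      _ = r := by rw [Finset.card_univ, ZMod.card]
  have h1 : r ^ l - r ≤ (Finset.univ \ R : Finset L).card := by
    have := Finset.le_card_sdiff R (Finset.univ : Finset L)
    rw [Finset.card_univ, hcard] at this
    omega
  refine h1.trans ?_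
  refine Finset.card_le_mul_card_image_of_maps_to (f := fun a : L => minpoly (ZMod r) a) ?_ l ?_
  · intro a ha
    rw [Finset.mem_sdiff] at ha
    have hint : IsIntegral (ZMod r) a := Algebra.IsIntegral.isIntegral a
    rw [mem_IR]
    refine ⟨minpoly.monic hint, minpoly.irreducible hint, ?_⟩
    have h2 : (minpoly (ZMod r) a).natDegree ∣ l := by
      have := minpoly.degree_dvd hint (K := ZMod r) (L := L)
      rwa [hfr] at this
    rcases (Nat.dvd_prime hl).1 h2 with h3 | h3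
    · exfalso
      apply ha.2
      have := (minpoly.natDegree_eq_one_iff (A := ZMod r) (x := a)).1 h3
      obtain ⟨b, hb⟩ := this
      exact Finset.mem_image.2 ⟨b, Finset.mem_univ _, hb⟩
    · exact h3
  · intro P hP
    rw [mem_IR] at hP
    calc (({a ∈ (Finset.univ \ R : Finset L) | minpoly (ZMod r) a = P} : Finset L)).card
        ≤ ((P.map (algebraMap (ZMod r) L)).roots.toFinset).card := by
          apply Finset.card_le_card
          intro a ha
          rw [Finset.mem_filter] at ha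
          rw [Multiset.mem_toFinset, mem_roots (map_ne_zero hP.1.ne_zero), IsRoot.def,
            eval_map_algebraMap, ← ha.2, minpoly.aeval]
      _ ≤ (P.map (algebraMap (ZMod r) L)).roots.card := Multiset.toFinset_card_le _
      _ ≤ (P.map (algebraMap (ZMod r) L)).natDegree := card_roots' _
      _ = l := by rw [natDegree_map, hP.2.2]

/-- Irreducibles of odd degree over `𝔽_r`, `r ≡ 3 mod 4`, divide a sum of two squares to the
second power. -/
theorem sq_dvd {r : ℕ} [Fact r.Prime] (hr : r % 4 = 3) {P : (ZMod r)[X]} (hP : Irreducible P)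
    (hodd : Odd P.natDegree) (f g : (ZMod r)[X]) (h : P ∣ f ^ 2 + g ^ 2) : P ^ 2 ∣ f ^ 2 + g ^ 2 := by
  haveI : Fact (Irreducible P) := ⟨hP⟩
  have hP0 : P ≠ 0 := hP.ne_zero
  let L := AdjoinRoot P
  haveI : Module.Finite (ZMod r) L := (AdjoinRoot.powerBasis hP0).finite
  haveI : Finite L := Module.finite_of_finite (ZMod r)
  haveI : Fintype L := Fintype.ofFinite L
  have hcard : Fintype.card L = r ^ P.natDegree := by
    rw [Module.card_eq_pow_finrank (K := ZMod r) (V := L), ZMod.card,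
      (AdjoinRoot.powerBasis hP0).finrank, AdjoinRoot.powerBasis_dim]
  have hmod : Fintype.card L % 4 = 3 := by
    obtain ⟨k, hk⟩ := hodd
    rw [hcard, hk, Nat.pow_mod, hr, pow_succ, pow_mul, Nat.mul_mod, Nat.pow_mod]
    norm_num
  have hns : ¬ IsSquare (-1 : L) := by
    rw [FiniteField.isSquare_neg_one_iff]
    simpa using hmod
  have h1 : (AdjoinRoot.mk P f) ^ 2 + (AdjoinRoot.mk P g) ^ 2 = 0 := by
    rw [← map_pow, ← map_pow, ← map_add]
    exact AdjoinRoot.mk_eq_zero.2 h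
  have hg : AdjoinRoot.mk P g = 0 := by
    by_contra hg
    apply hns
    refine ⟨AdjoinRoot.mk P f / AdjoinRoot.mk P g, ?_⟩
    rw [← sq, div_pow, eq_div_iff (pow_ne_zero 2 hg)]
    linear_combination -h1
  have hf : AdjoinRoot.mk P f = 0 := by
    rw [hg] at h1
    simpa using h1
  rw [AdjoinRoot.mk_eq_zero] at hf hg
  exact dvd_add (pow_dvd_pow_of_dvd hf 2) (pow_dvd_pow_of_dvd hg 2)

theorem sum_IR {r : ℕ} [Fact r.Prime] (hr : 3 ≤ r) {l : ℕ} (hl : l.Prime) (hl3 : 3 ≤ l) :
    (1 / 2 : ℝ) * (1 / (l : ℝ)) ≤ ∑ P ∈ IR r l, mu P := by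
  have h1 : ∀ P ∈ IR r l, mu P = ((r : ℝ) ^ l)⁻¹ - ((r : ℝ) ^ (2 * l))⁻¹ := by
    intro P hP
    rw [mem_IR] at hP
    unfold mu nm
    rw [natDegree_pow, hP.2.2, ZMod.card]
  rw [Finset.sum_congr rfl h1, Finset.sum_const, nsmul_eq_mul]
  have h2 : r ^ l - r ≤ l * (IR r l).card := card_IR r l hl
  have hrl : r ≤ r ^ l := Nat.le_self_pow hl.ne_zero r
  have h3 : (r : ℝ) ^ l - r ≤ l * ((IR r l).card : ℝ) := by
    have : ((r ^ l - r : ℕ) : ℝ) ≤ ((l * (IR r l).card : ℕ) : ℝ) := by exact_mod_cast h2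
    rw [Nat.cast_sub hrl] at this
    push_cast at this
    exact this
  have hr0 : (3 : ℝ) ≤ r := by exact_mod_cast hr
  have hl0 : (0 : ℝ) < l := by exact_mod_cast hl.pos
  set X : ℝ := (r : ℝ) ^ l with hX
  have hX9 : (9 : ℝ) * r ≤ X := by
    calc (9 : ℝ) * r ≤ (r : ℝ) ^ 2 * r := by nlinarith
      _ = (r : ℝ) ^ 3 := by ring
      _ ≤ X := pow_le_pow_right₀ (by linarith) hl3
  have hXp : 0 < X := by nlinarith
  have h4 : (r : ℝ) ^ (2 * l) = X ^ 2 := by rw [hX, ← pow_mul, mul_comm]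
  rw [h4]
  have h5 : (X - r) / l ≤ ((IR r l).card : ℝ) := by
    rw [div_le_iff₀ hl0]; linarith
  have h6 : 0 ≤ X⁻¹ - (X ^ 2)⁻¹ := by
    have : X⁻¹ - (X ^ 2)⁻¹ = (X - 1) / X ^ 2 := by field_simp
    rw [this]
    apply div_nonneg _ (by positivity)
    nlinarith
  calc (1 / 2 : ℝ) * (1 / (l : ℝ)) ≤ ((X - r) / l) * (X⁻¹ - (X ^ 2)⁻¹) := by
        have : ((X - r) / l) * (X⁻¹ - (X ^ 2)⁻¹) = (X - r) * (X - 1) / X ^ 2 * (1 / l) := by
          field_simp
        rw [this]
        apply mul_le_mul_of_nonneg_right _ (by positivity)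
        rw [le_div_iff₀ (by positivity)]
        nlinarith
    _ ≤ _ := mul_le_mul_of_nonneg_right h5 h6

/-- There are finite sets of irreducibles of odd degree with large total weight. -/
theorem exists_family (r : ℕ) [Fact r.Prime] (hr : 3 ≤ r) (M : ℝ) :
    ∃ S : Finset (ZMod r)[X], (∀ P ∈ S, P.Monic ∧ Irreducible P ∧ Odd P.natDegree) ∧
      M < ∑ P ∈ S, mu P := by
  have hdiv := not_summable_one_div_on_primes
  rw [not_summable_iff_tendsto_nat_atTop_of_nonneg] at hdiv
  swap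
  · intro n
    apply Set.indicator_nonneg
    intro x _
    positivity
  obtain ⟨n, hn⟩ := (hdiv.eventually (Filter.eventually_gt_atTop (2 * M + 1 / 2))).exists
  set T := (Finset.range n).filter (fun l => l.Prime ∧ 3 ≤ l) with hT
  have hsum : ∑ i ∈ Finset.range n, ({p : ℕ | p.Prime} : Set ℕ).indicator (fun n : ℕ => (1 : ℝ) / n) i
      ≤ (∑ l ∈ T, 1 / (l : ℝ)) + 1 / 2 := by
    have h1 : ∀ i ∈ Finset.range n,
        ({p : ℕ | p.Prime} : Set ℕ).indicator (fun n : ℕ => (1 : ℝ) / n) i ≤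
        (if i.Prime ∧ 3 ≤ i then 1 / (i : ℝ) else 0) + (if i = 2 then 1 / 2 else 0) := by
      intro i _
      by_cases hi : i.Prime
      · rw [Set.indicator_of_mem (by exact hi)]
        rcases Nat.lt_or_ge i 3 with h3 | h3
        · have : i = 2 := by have := hi.two_le; omega
          subst this
          simp
        · rw [if_pos ⟨hi, h3⟩, if_neg (by omega), add_zero]
      · rw [Set.indicator_of_notMem (by exact hi)]
        rw [if_neg (fun h => hi h.1)]
        split_ifs <;> norm_num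
    refine (Finset.sum_le_sum h1).trans ?_
    rw [Finset.sum_add_distrib, hT, Finset.sum_filter]
    gcongr
    rw [Finset.sum_ite_eq']
    split_ifs <;> norm_num
  refine ⟨T.biUnion (IR r), ?_, ?_⟩
  · intro P hP
    rw [Finset.mem_biUnion] at hP
    obtain ⟨l, hl, hP⟩ := hP
    rw [mem_IR] at hP
    rw [hT, Finset.mem_filter] at hl
    refine ⟨hP.1, hP.2.1, ?_⟩
    rw [hP.2.2]
    exact hl.2.1.odd_of_ne_two (by omega)
  · rw [Finset.sum_biUnion]
    · have h2 : ∑ l ∈ T, (1 / 2 : ℝ) * (1 / (l : ℝ)) ≤ ∑ l ∈ T, ∑ P ∈ IR r l, mu P := by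
        apply Finset.sum_le_sum
        intro l hl
        rw [hT, Finset.mem_filter] at hl
        exact sum_IR hr hl.2.1 hl.2.2
      rw [← Finset.mul_sum] at h2
      linarith
    · intro a _ b _ hab
      rw [Function.onFun, Finset.disjoint_left]
      intro P hPa hPb
      rw [mem_IR] at hPa hPb
      exact hab (hPa.2.2.symm.trans hPb.2.2)

/-- The proportion of sums of two squares among the polynomials of degree `< N` over `𝔽_r`,
`r ≡ 3 mod 4`, tends to zero. -/
theorem sum_two_squares (r : ℕ) [Fact r.Prime] (hr : r % 4 = 3) (c : ℝ) (hc : 0 < c) :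
    ∃ N0 : ℕ, ∀ N : ℕ, N0 ≤ N →
      (((PF (ZMod r) N).filter (fun H => ∃ f g : (ZMod r)[X], H = f ^ 2 + g ^ 2)).card : ℝ) <
        c * (r : ℝ) ^ N := by
  have hr3 : 3 ≤ r := by omega
  obtain ⟨S, hS, hM⟩ := exists_family r hr3 (1 / c)
  refine ⟨S.sup (fun P => 4 * P.natDegree), ?_⟩
  intro N hN
  have hL : 0 < ∑ P ∈ S, mu P := lt_trans (by positivity) hM
  have h1 := cheb (N := N) S (fun P hP => ⟨(hS P hP).1, (hS P hP).2.1⟩)
    (fun P hP => (Finset.le_sup (f := fun P : (ZMod r)[X] => 4 * P.natDegree) hP).trans hN) hL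
  rw [ZMod.card] at h1
  have h2 : (((PF (ZMod r) N).filter (fun H => ∃ f g : (ZMod r)[X], H = f ^ 2 + g ^ 2)).card : ℝ) ≤
      (((PF (ZMod r) N).filter (fun f => ∀ P ∈ S, P ∣ f → P ^ 2 ∣ f)).card : ℝ) := by
    have : ((PF (ZMod r) N).filter (fun H => ∃ f g : (ZMod r)[X], H = f ^ 2 + g ^ 2)) ⊆
        ((PF (ZMod r) N).filter (fun f => ∀ P ∈ S, P ∣ f → P ^ 2 ∣ f)) := by
      intro H hH
      rw [Finset.mem_filter] at hH ⊢
      refine ⟨hH.1, ?_⟩
      obtain ⟨f, g, rfl⟩ := hH.2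
      intro P hP hd
      exact sq_dvd hr (hS P hP).2.1 (hS P hP).2.2 f g hd
    exact_mod_cast Finset.card_le_card this
  have hq : (0 : ℝ) < (r : ℝ) ^ N := by
    have : (0 : ℝ) < r := by exact_mod_cast (by omega : 0 < r)
    positivity
  set t := (((PF (ZMod r) N).filter (fun f => ∀ P ∈ S, P ∣ f → P ^ 2 ∣ f)).card : ℝ) with ht
  refine lt_of_le_of_lt h2 ?_
  have h3 : t ≤ (r : ℝ) ^ N / (∑ P ∈ S, mu P) := by
    rw [le_div_iff₀ hL]; exact h1
  refine lt_of_le_of_lt h3 ?_
  rw [div_lt_iff₀ hL]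
  have h4 : 1 < c * ∑ P ∈ S, mu P := by
    rw [one_div, inv_lt_iff_one_lt_mul₀ hc] at hM
    linarith [mul_comm c (∑ P ∈ S, mu P)]
  nlinarith

end Pool.Agent.W249.EF
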