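import Pool.Agent.W758.AHC.Stm2

/-!
# Project AHC, part PHI0
-/

set_option autoImplicit false

namespace Pool.Agent.W249.AHCPHI0

open Pool.Agent.W758.AHC

lemma cc1 : cc 1 = 1 / 2 := by
  unfold cc
  have : Nat.centralBinom 1 = 2 := by decide
  rw [this]; norm_num

lemma cc2 : cc 2 = 3 / 8 := by
  unfold cc
  have : Nat.centralBinom 2 = 6 := by decide
  rw [this]; norm_num

lemma cc3 : cc 3 = 5 / 16 := by
  unfold cc
  have : Nat.centralBinom 3 = 20 := by decide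
  rw [this]; norm_num

lemma lem1 (hrec : ∀ k : ℕ, cc (k + 1) = cc k * ((2 * k + 1) / (2 * k + 2)))
    (hpos : ∀ k : ℕ, 0 < cc k) (a : ℕ) (ha : 1 ≤ a) (b : ℕ) :
    cc a * (2 * cc (b + 1)) ≤ cc (a + b) := by
  induction b with
  | zero => rw [zero_add, cc1, add_zero]; linarith
  | succ b ih =>
    have h1 := hrec (b + 1)
    have h2 := hrec (a + b)
    have h3 : cc (a + (b + 1)) = cc (a + b) * ((2 * ((a + b : ℕ) : ℚ) + 1) /
        (2 * ((a + b : ℕ) : ℚ) + 2)) := by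
      rw [← h2]; rfl
    rw [h3, h1]
    have ha' : (1 : ℚ) ≤ a := by exact_mod_cast ha
    have hb' : (0 : ℚ) ≤ b := by positivity
    have h4 : (2 * ((b + 1 : ℕ) : ℚ) + 1) / (2 * ((b + 1 : ℕ) : ℚ) + 2) ≤
        (2 * ((a + b : ℕ) : ℚ) + 1) / (2 * ((a + b : ℕ) : ℚ) + 2) := by
      push_cast
      rw [div_le_div_iff₀ (by positivity) (by positivity)]
      nlinarith
    have h5 : (0 : ℚ) ≤ (2 * ((b + 1 : ℕ) : ℚ) + 1) / (2 * ((b + 1 : ℕ) : ℚ) + 2) := by
      positivity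
    calc cc a * (2 * (cc (b + 1) * ((2 * ((b + 1 : ℕ) : ℚ) + 1) / (2 * ((b + 1 : ℕ) : ℚ) + 2))))
        = (cc a * (2 * cc (b + 1))) *
          ((2 * ((b + 1 : ℕ) : ℚ) + 1) / (2 * ((b + 1 : ℕ) : ℚ) + 2)) := by ring
      _ ≤ cc (a + b) * ((2 * ((a + b : ℕ) : ℚ) + 1) / (2 * ((a + b : ℕ) : ℚ) + 2)) :=
          mul_le_mul ih h4 h5 (hpos _).le

lemma lem2 (hrec : ∀ k : ℕ, cc (k + 1) = cc k * ((2 * k + 1) / (2 * k + 2)))
    (hpos : ∀ k : ℕ, 0 < cc k) (b1 : ℕ) (h1 : 1 ≤ b1) (b2 : ℕ) :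
    (2 * cc (b1 + 1)) * (2 * cc (b2 + 1 + 1)) ≤ 9 / 10 * (2 * cc (b1 + (b2 + 1) + 1)) := by
  have hb1 : (1 : ℚ) ≤ b1 := by exact_mod_cast h1
  induction b2 with
  | zero =>
    have h2 := hrec (b1 + 1)
    rw [zero_add, show (1 + 1 : ℕ) = 2 from rfl, cc2]
    rw [h2]
    have h3 : (3 : ℚ) / 4 ≤ 9 / 10 * ((2 * ((b1 + 1 : ℕ) : ℚ) + 1) / (2 * ((b1 + 1 : ℕ) : ℚ) + 2)) := by
      push_cast
      rw [mul_div_assoc', div_le_div_iff₀ (by positivity) (by positivity)]
      nlinarith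
    have h4 := hpos (b1 + 1)
    nlinarith
  | succ b2 ih =>
    have e1 := hrec (b2 + 1 + 1)
    have e2 := hrec (b1 + (b2 + 1) + 1)
    rw [show b1 + (b2 + 1 + 1) + 1 = b1 + (b2 + 1) + 1 + 1 by ring, e1, e2]
    have hb2 : (0 : ℚ) ≤ b2 := by positivity
    have h4 : (2 * ((b2 + 1 + 1 : ℕ) : ℚ) + 1) / (2 * ((b2 + 1 + 1 : ℕ) : ℚ) + 2) ≤
        (2 * ((b1 + (b2 + 1) + 1 : ℕ) : ℚ) + 1) / (2 * ((b1 + (b2 + 1) + 1 : ℕ) : ℚ) + 2) := by
      push_cast
      rw [div_le_div_iff₀ (by positivity) (by positivity)]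
      nlinarith
    have h5 : (0 : ℚ) ≤ (2 * ((b2 + 1 + 1 : ℕ) : ℚ) + 1) / (2 * ((b2 + 1 + 1 : ℕ) : ℚ) + 2) := by
      positivity
    have hp := hpos (b1 + (b2 + 1) + 1)
    calc (2 * cc (b1 + 1)) * (2 * (cc (b2 + 1 + 1) *
          ((2 * ((b2 + 1 + 1 : ℕ) : ℚ) + 1) / (2 * ((b2 + 1 + 1 : ℕ) : ℚ) + 2))))
        = ((2 * cc (b1 + 1)) * (2 * cc (b2 + 1 + 1))) *
          ((2 * ((b2 + 1 + 1 : ℕ) : ℚ) + 1) / (2 * ((b2 + 1 + 1 : ℕ) : ℚ) + 2)) := by ring
      _ ≤ (9 / 10 * (2 * cc (b1 + (b2 + 1) + 1))) *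
          ((2 * ((b1 + (b2 + 1) + 1 : ℕ) : ℚ) + 1) / (2 * ((b1 + (b2 + 1) + 1 : ℕ) : ℚ) + 2)) :=
          mul_le_mul ih h4 h5 (by positivity)
      _ = 9 / 10 * (2 * (cc (b1 + (b2 + 1) + 1) *
          ((2 * ((b1 + (b2 + 1) + 1 : ℕ) : ℚ) + 1) / (2 * ((b1 + (b2 + 1) + 1 : ℕ) : ℚ) + 2)))) := by
          ring

lemma lem2' (hrec : ∀ k : ℕ, cc (k + 1) = cc k * ((2 * k + 1) / (2 * k + 2)))
    (hpos : ∀ k : ℕ, 0 < cc k) (b1 : ℕ) (h1 : 1 ≤ b1) (b2 : ℕ) (h2 : 1 ≤ b2) :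
    (2 * cc (b1 + 1)) * (2 * cc (b2 + 1)) ≤ 9 / 10 * (2 * cc (b1 + b2 + 1)) := by
  obtain ⟨c, rfl⟩ := Nat.exists_eq_add_of_le' h2
  exact lem2 hrec hpos b1 h1 c

lemma lensum (L : List ℕ) (hL : ∀ r ∈ L, 2 ≤ r) : L.length ≤ (L.map (fun r => r / 2)).sum := by
  induction L with
  | nil => simp
  | cons r L ih =>
    have h1 := ih (fun s hs => hL s (List.mem_cons_of_mem _ hs))
    have h2 := hL r (List.mem_cons_self)
    simp only [List.length_cons, List.map_cons, List.sum_cons]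
    omega

lemma sumle (L : List ℕ) : L.sum ≤ 2 * (L.map (fun r => r / 2)).sum + L.length := by
  induction L with
  | nil => simp
  | cons r L ih =>
    simp only [List.length_cons, List.map_cons, List.sum_cons]
    omega

lemma lem3 (hrec : ∀ k : ℕ, cc (k + 1) = cc k * ((2 * k + 1) / (2 * k + 2)))
    (hpos : ∀ k : ℕ, 0 < cc k) (r : ℕ) (L : List ℕ) (hL : ∀ s ∈ r :: L, 2 ≤ s) :
    (((r :: L).map (fun r => 2 * cc (r / 2 + 1))).prod : ℚ) ≤
      (9 / 10) ^ L.length * (2 * cc (((r :: L).map (fun r => r / 2)).sum + 1)) := by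
  induction L generalizing r with
  | nil => simp
  | cons s L ih =>
    have h1 := ih s (fun t ht => hL t (List.mem_cons_of_mem _ ht))
    have hr : 2 ≤ r := hL r List.mem_cons_self
    have hs : 2 ≤ s := hL s (by simp)
    have hb2 : 1 ≤ ((s :: L).map (fun r => r / 2)).sum := by
      have := lensum (s :: L) (fun t ht => hL t (List.mem_cons_of_mem _ ht))
      simp only [List.length_cons] at this
      omega
    have h2 := lem2' hrec hpos (r / 2) (by omega) _ hb2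
    have hp := hpos (r / 2 + 1)
    have h3 : (0 : ℚ) ≤ (9 / 10) ^ L.length := by positivity
    calc (((r :: s :: L).map (fun r => 2 * cc (r / 2 + 1))).prod : ℚ)
        = 2 * cc (r / 2 + 1) * ((s :: L).map (fun r => 2 * cc (r / 2 + 1))).prod := by
          rw [List.map_cons, List.prod_cons]
      _ ≤ 2 * cc (r / 2 + 1) *
          ((9 / 10) ^ L.length * (2 * cc (((s :: L).map (fun r => r / 2)).sum + 1))) :=
          mul_le_mul_of_nonneg_left h1 (by positivity)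
      _ = (9 / 10) ^ L.length * ((2 * cc (r / 2 + 1)) *
            (2 * cc (((s :: L).map (fun r => r / 2)).sum + 1))) := by ring
      _ ≤ (9 / 10) ^ L.length * (9 / 10 * (2 * cc (r / 2 +
            ((s :: L).map (fun r => r / 2)).sum + 1))) := mul_le_mul_of_nonneg_left h2 h3
      _ = (9 / 10) ^ (s :: L).length *
            (2 * cc (((r :: s :: L).map (fun r => r / 2)).sum + 1)) := by
          rw [List.length_cons, pow_succ, List.map_cons (a := r), List.sum_cons]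
          ring

lemma lem4 (hrec : ∀ k : ℕ, cc (k + 1) = cc k * ((2 * k + 1) / (2 * k + 2)))
    (hpos : ∀ k : ℕ, 0 < cc k) (k0 : ℕ) (hk : 4 ≤ k0) (j : ℕ) :
    (9 / 10) ^ j * cc k0 ≤ cc (k0 + j) := by
  induction j with
  | zero => simp
  | succ j ih =>
    have h1 := hrec (k0 + j)
    rw [← add_assoc, h1]
    have hk' : (4 : ℚ) ≤ k0 := by exact_mod_cast hk
    have hj : (0 : ℚ) ≤ j := by positivity
    have h2 : (9 : ℚ) / 10 ≤ (2 * ((k0 + j : ℕ) : ℚ) + 1) / (2 * ((k0 + j : ℕ) : ℚ) + 2) := by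
      push_cast
      rw [div_le_div_iff₀ (by positivity) (by positivity)]
      nlinarith
    calc (9 / 10 : ℚ) ^ (j + 1) * cc k0 = ((9 / 10) ^ j * cc k0) * (9 / 10) := by ring
      _ ≤ cc (k0 + j) * ((2 * ((k0 + j : ℕ) : ℚ) + 1) / (2 * ((k0 + j : ℕ) : ℚ) + 2)) :=
          mul_le_mul ih h2 (by norm_num) (hpos _).le

theorem phi0 : S_PHI0 := by
  intro hCC m L hm hL0 hL hexc
  obtain ⟨-, -, hrec, hpos, -, -, -⟩ := hCC
  obtain ⟨r, L', rfl⟩ := List.exists_cons_of_ne_nil hL0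
  set b := ((r :: L').map (fun r => r / 2)).sum with hb
  have h3 := lem3 hrec hpos r L' hL
  have hlen := lensum (r :: L') hL
  have hsum := sumle (r :: L')
  rw [← hb] at h3 hlen hsum
  simp only [List.length_cons] at hlen hsum
  have ha : 1 ≤ (m + 1) / 2 := by omega
  have h1 := lem1 hrec hpos ((m + 1) / 2) ha b
  have hphi : PhiZ m (r :: L') ≤ (9 / 10) ^ L'.length * cc ((m + 1) / 2 + b) := by
    unfold PhiZ
    calc cc ((m + 1) / 2) * ((r :: L').map (fun r => 2 * cc (r / 2 + 1))).prod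
        ≤ cc ((m + 1) / 2) * ((9 / 10) ^ L'.length * (2 * cc (b + 1))) :=
          mul_le_mul_of_nonneg_left h3 (hpos _).le
      _ = (9 / 10) ^ L'.length * (cc ((m + 1) / 2) * (2 * cc (b + 1))) := by ring
      _ ≤ (9 / 10) ^ L'.length * cc ((m + 1) / 2 + b) :=
          mul_le_mul_of_nonneg_left h1 (by positivity)
  by_cases hn : L' = []
  · subst hn
    have hbr : b = r / 2 := by simp [hb]
    have hr : 2 ≤ r := hL r List.mem_cons_self
    refine ⟨(m + 1) / 2 + b, by omega, ?_, ?_, ?_⟩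
    · simp only [List.length_nil] at hsum; omega
    · simpa using hphi
    · intro hk
      exact ⟨by omega, r, by omega, rfl⟩
  · have hn1 : 1 ≤ L'.length := List.length_pos_of_ne_nil hn
    by_cases hk : 4 ≤ (m + 1) / 2 + b
    · refine ⟨(m + 1) / 2 + b + (L'.length + 1) / 2, by omega, by omega, ?_, ?_⟩
      · refine hphi.trans ?_
        refine le_trans ?_ (lem4 hrec hpos _ hk ((L'.length + 1) / 2))
        refine mul_le_mul_of_nonneg_right ?_ (hpos _).le
        exact pow_le_pow_of_le_one (by norm_num) (by norm_num) (by omega)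
      · intro h; omega
    · -- the small case
      have hl1 : L'.length = 1 := by omega
      obtain ⟨s, rfl⟩ := List.length_eq_one_iff.1 hl1
      have hr : 2 ≤ r := hL r List.mem_cons_self
      have hs : 2 ≤ s := hL s (by simp)
      have hbrs : b = r / 2 + s / 2 := by simp [hb]
      have hr2 : r / 2 = 1 := by omega
      have hs2 : s / 2 = 1 := by omega
      have ha1 : (m + 1) / 2 = 1 := by omega
      refine ⟨3, by norm_num, ?_, ?_, ?_⟩
      · simp only [List.sum_cons, List.sum_nil]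
        by_contra hc
        apply hexc
        have e1 : m = 2 := by omega
        have e2 : r = 3 := by omega
        have e3 : s = 3 := by omega
        subst e1 e2 e3
        exact ⟨rfl, rfl⟩
      · unfold PhiZ
        simp only [List.map_cons, List.map_nil, List.prod_cons, List.prod_nil, hr2, hs2, ha1]
        rw [show (1 + 1 : ℕ) = 2 from rfl, cc1, cc2, cc3]
        norm_num
      · intro h; omega

end Pool.Agent.W249.AHCPHI0

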