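import Pool.Agent.W527.CL.Stm

/-!
# Small vectors (project CL, part SMALL)
-/

namespace Pool.Agent.W249.CLSMALL

open Pool.Agent.W527.CL NumberField

variable {K : Type} [Field K] [NumberField K] (D : FieldData K)

lemma lam34 (j : Fin 4) : D.lam j 3 = D.lam j 4 := by
  unfold FieldData.lam
  have h := D.conj 3
  rw [Equiv.swap_apply_left] at h
  rw [← h]
  have h2 : (starRingEnd ℂ) (D.β 3) + (nn j : ℂ) = (starRingEnd ℂ) (D.β 3 + (nn j : ℂ)) := by
    simp
  rw [h2, Complex.norm_conj]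

lemma exists_s : ∃ (s : Fin 4 → ℝ) (i0 : Fin 4) (κ : ℝ), s i0 = 2 ∧
    ∀ k, ∑ j, s j * D.lam j k = κ := by
  let A : Matrix (Fin 3) (Fin 4) ℝ := fun k j => D.lam j k.castSucc.castSucc - D.lam j 3
  have hker : LinearMap.ker A.mulVecLin ≠ ⊥ := by
    apply LinearMap.ker_ne_bot_of_finrank_lt
    simp
  obtain ⟨s, hs, hs0⟩ := Submodule.exists_mem_ne_zero_of_ne_bot hker
  obtain ⟨i0, hi0⟩ : ∃ i, s i ≠ 0 := by
    by_contra hc
    push Not at hc
    exact hs0 (funext hc)
  have hs1 : ∀ k : Fin 3, ∑ j, A k j * s j = 0 := by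
    intro k
    have h1 : A.mulVecLin s = 0 := hs
    have h2 := congrFun h1 k
    simpa [Matrix.mulVecLin_apply, Matrix.mulVec, dotProduct] using h2
  refine ⟨fun j => 2 / s i0 * s j, i0, ∑ j, 2 / s i0 * s j * D.lam j 3, ?_, ?_⟩
  · field_simp
  · have key : ∀ k : Fin 3, ∑ j, 2 / s i0 * s j * D.lam j k.castSucc.castSucc =
        ∑ j, 2 / s i0 * s j * D.lam j 3 := by
      intro k
      have h1 := hs1 k
      have h2 : ∑ j, 2 / s i0 * s j * D.lam j k.castSucc.castSucc
          - ∑ j, 2 / s i0 * s j * D.lam j 3 = 2 / s i0 * ∑ j, A k j * s j := by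
        rw [← Finset.sum_sub_distrib, Finset.mul_sum]
        refine Finset.sum_congr rfl fun j _ => ?_
        simp only [A]
        ring
      rw [h1, mul_zero] at h2
      linarith
    intro k
    fin_cases k
    · exact key 0
    · exact key 1
    · exact key 2
    · rfl
    · refine Finset.sum_congr rfl fun j _ => ?_
      rw [lam34 D j]
      rfl

/-- the sign function -/
noncomputable def chi (k : Fin 5) : ℂ := if k = 3 then 1 else if k = 4 then -1 else 0

lemma im_lgc (hL : S_LGC) (s : Fin 4 → ℝ) (κ : ℝ) (hs : ∀ k, ∑ j, s j * D.lam j k = κ)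
    (k : Fin 5) :
    ∑ j, (s j : ℂ) * D.lgc j k = κ + ((∑ j, s j * (D.lgc j 3).im : ℝ) : ℂ) * Complex.I * chi k := by
  have h1 : ∀ j, (D.lgc j k).im = (D.lgc j 3).im * (chi k).re := by
    intro j
    have hk := (hL K D j k).2.1
    have h3 := (hL K D j 3).2.1
    rw [Equiv.swap_apply_left] at h3
    have h4 : (D.lgc j 4).im = - (D.lgc j 3).im := by
      rw [← h3]; simp
    fin_cases k
    · have h5 : (starRingEnd ℂ) (D.lgc j 0) = D.lgc j 0 := by
        have : (Equiv.swap (3 : Fin 5) 4) 0 = 0 := by decide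
        simpa [this] using hk
      have h6 := congrArg Complex.im h5
      simp only [Complex.conj_im] at h6
      simp [chi]
      linarith
    · have h5 : (starRingEnd ℂ) (D.lgc j 1) = D.lgc j 1 := by
        have : (Equiv.swap (3 : Fin 5) 4) 1 = 1 := by decide
        simpa [this] using hk
      have h6 := congrArg Complex.im h5
      simp only [Complex.conj_im] at h6
      simp [chi]
      linarith
    · have h5 : (starRingEnd ℂ) (D.lgc j 2) = D.lgc j 2 := by
        have : (Equiv.swap (3 : Fin 5) 4) 2 = 2 := by decide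
        simpa [this] using hk
      have h6 := congrArg Complex.im h5
      simp only [Complex.conj_im] at h6
      simp [chi]
      linarith
    · simp [chi]
    · simp [chi, h4]
  have hchi : (chi k).im = 0 := by
    unfold chi
    split_ifs <;> simp
  apply Complex.ext
  · simp only [Complex.re_sum, Complex.mul_re, Complex.ofReal_re, Complex.ofReal_im, zero_mul,
      sub_zero, Complex.add_re, Complex.I_re, mul_zero, Complex.I_im, mul_one, zero_sub,
      Complex.mul_im, add_zero, zero_add, hchi, sub_self, neg_zero]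
    rw [← hs k]
    refine Finset.sum_congr rfl fun j _ => ?_
    rw [(hL K D j k).1]
  · simp only [Complex.im_sum, Complex.mul_im, Complex.ofReal_re, Complex.ofReal_im, zero_mul,
      add_zero, Complex.add_im, Complex.I_re, mul_zero, Complex.I_im, mul_one, zero_add,
      Complex.mul_re, sub_zero, hchi]
    rw [Finset.sum_mul]
    refine Finset.sum_congr rfl fun j _ => ?_
    rw [h1 j]
    ring

lemma ev_sub (μ ν : Fin 4 → Fin 5 → ℂ) (p : Equiv.Perm (Fin 5)) :
    ev μ p - ev ν p = ev (fun i k => μ i k - ν i k) p := by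
  unfold ev
  rw [← Finset.sum_sub_distrib]
  refine Finset.sum_congr rfl fun i _ => ?_
  ring

lemma ev_norm (μ : Fin 4 → Fin 5 → ℂ) (B : ℝ) (h : ∀ i k, ‖μ i k‖ ≤ B) (p : Equiv.Perm (Fin 5)) :
    ‖ev μ p‖ ≤ 8 * B := by
  unfold ev
  calc ‖∑ i : Fin 4, (μ i (p i.castSucc) - μ i (p (Fin.last 4)))‖
      ≤ ∑ i : Fin 4, ‖μ i (p i.castSucc) - μ i (p (Fin.last 4))‖ := norm_sum_le _ _
    _ ≤ ∑ _i : Fin 4, 2 * B := by
        refine Finset.sum_le_sum fun i _ => ?_
        refine (norm_sub_le _ _).trans ?_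
        have h1 := h i (p i.castSucc)
        have h2 := h i (p (Fin.last 4))
        linarith
    _ = 8 * B := by simp; ring

theorem perm_eq (p : Equiv.Perm (Fin 5)) : ∃ φ : K →+* ℂ, D.perm φ = p := by
  obtain ⟨φ, hφ⟩ := D.surj p
  refine ⟨φ, ?_⟩
  ext1 k
  apply D.inj
  rw [← D.perm_spec φ k, hφ k]

theorem t_SMALL (hD : S_DIR) (hL : S_LGC) (hI : S_INDEP) (hZ : S_ZERO) : S_SMALL := by
  intro K _ _ D ε hε
  obtain ⟨s, i0, κ, hs2, hs⟩ := exists_s D
  set θ : ℝ := ∑ j, s j * (D.lgc j 3).im with hθ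
  -- a bound for the logarithms
  obtain ⟨M, hM0, hM⟩ : ∃ M : ℝ, 0 < M ∧ ∀ j k, ‖D.lgc j k‖ ≤ M := by
    refine ⟨1 + ∑ j, ∑ k, ‖D.lgc j k‖, ?_, ?_⟩
    · have : 0 ≤ ∑ j, ∑ k, ‖D.lgc j k‖ :=
        Finset.sum_nonneg fun j _ => Finset.sum_nonneg fun k _ => norm_nonneg _
      linarith
    · intro j k
      have h1 : ‖D.lgc j k‖ ≤ ∑ k', ‖D.lgc j k'‖ :=
        Finset.single_le_sum (f := fun k' => ‖D.lgc j k'‖) (fun k' _ => norm_nonneg _)
          (Finset.mem_univ k)
      have h2 : ∑ k', ‖D.lgc j k'‖ ≤ ∑ j', ∑ k', ‖D.lgc j' k'‖ :=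
        Finset.single_le_sum (f := fun j' => ∑ k', ‖D.lgc j' k'‖)
          (fun j' _ => Finset.sum_nonneg fun k' _ => norm_nonneg _) (Finset.mem_univ j)
      linarith
  have hpi := Real.pi_pos
  set c : ℝ := 8 * (8 * M + 2 * Real.pi) with hc
  have hc0 : 0 < c := by positivity
  set η : ℝ := min (ε / (2 * c)) (1 / 2) with hη
  have hη0 : 0 < η := by positivity
  have hη1 : η ≤ 1 / 2 := min_le_right _ _
  have hη2 : c * η < ε := by
    have h1 : η ≤ ε / (2 * c) := min_le_left _ _
    have h2 : c * η ≤ c * (ε / (2 * c)) := mul_le_mul_of_nonneg_left h1 hc0.le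
    have h3 : c * (ε / (2 * c)) = ε / 2 := by field_simp
    linarith
  obtain ⟨q, hq, m, hm⟩ := hD ((Fin 4 × Fin 4) ⊕ Fin 4)
    (Sum.elim (fun ij => s ij.1 * s ij.2 / 2) (fun i => -s i * θ / (2 * Real.pi))) η hη0
  have hmC : ∀ i j, |(q : ℝ) * (s i * s j / 2) - m (Sum.inl (i, j))| < η := fun i j =>
    hm (Sum.inl (i, j))
  have hmr : ∀ i, |(q : ℝ) * (-s i * θ / (2 * Real.pi)) - m (Sum.inr i)| < η := fun i =>
    hm (Sum.inr i)
  refine ⟨fun i j => m (Sum.inl (i, j)), fun i => m (Sum.inr i), ?_, ?_⟩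
  · -- not zero
    intro h0
    have h1 : ∀ p, ev (D.muc (fun i j => ((m (Sum.inl (i, j)) + m (Sum.inl (j, i)) : ℤ) : ℝ))
        (fun i => ((m (Sum.inr i) : ℤ) : ℝ))) p = 0 := by
      intro p
      obtain ⟨φ, hφ⟩ := perm_eq D p
      have h2 := congrFun h0 φ
      simp only [FieldData.vec, hφ, Pi.zero_apply] at h2
      exact h2
    have h2 := hZ ℂ _ h1 i0 0 1
    unfold FieldData.muc at h2
    change _ + _ * _ * chi 0 = _ + _ * _ * chi 1 at h2
    have hchi0 : chi 0 = 0 := by simp [chi]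
    have hchi1 : chi 1 = 0 := by simp [chi]
    rw [hchi0, hchi1, mul_zero, add_zero, add_zero] at h2
    have h3 := congrArg Complex.exp h2
    rw [Complex.exp_sum, Complex.exp_sum] at h3
    have h4 : ∀ k : Fin 5, ∀ j : Fin 4,
        Complex.exp ((((m (Sum.inl (i0, j)) + m (Sum.inl (j, i0)) : ℤ) : ℝ) : ℂ) * D.lgc j k) =
        (D.β k + (nn j : ℂ)) ^ (m (Sum.inl (i0, j)) + m (Sum.inl (j, i0))) := by
      intro k j
      rw [← (hL K D j k).2.2, ← Complex.exp_int_mul]
      push_cast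
      rfl
    simp only [h4] at h3
    have h5 := hI K D _ h3
    have h6 := congrFun h5 i0
    simp only [Pi.zero_apply] at h6
    have h7 : m (Sum.inl (i0, i0)) = 0 := by omega
    have h8 := hmC i0 i0
    rw [h7, hs2] at h8
    have hq1 : (1 : ℝ) ≤ q := by exact_mod_cast hq
    rw [abs_lt] at h8
    norm_num at h8
    linarith [h8.2]
  · -- small
    rw [pi_norm_lt_iff hε]
    intro φ
    -- comparison with the exact solution
    have hzero : ev (fun i (_ : Fin 5) => (((q : ℝ) * s i * κ : ℝ) : ℂ)) (D.perm φ) = 0 := by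
      unfold ev
      simp
    have hv : D.vec (fun i j => m (Sum.inl (i, j))) (fun i => m (Sum.inr i)) φ =
        ev (fun i k => D.muc (fun i j => ((m (Sum.inl (i, j)) + m (Sum.inl (j, i)) : ℤ) : ℝ))
          (fun i => ((m (Sum.inr i) : ℤ) : ℝ)) i k - (((q : ℝ) * s i * κ : ℝ) : ℂ)) (D.perm φ) := by
      rw [← ev_sub, hzero, sub_zero]
      rfl
    rw [hv]
    have hb : ∀ (i : Fin 4) (k : Fin 5),
        ‖D.muc (fun i j => ((m (Sum.inl (i, j)) + m (Sum.inl (j, i)) : ℤ) : ℝ))
          (fun i => ((m (Sum.inr i) : ℤ) : ℝ)) i k - (((q : ℝ) * s i * κ : ℝ) : ℂ)‖ ≤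
        (8 * M + 2 * Real.pi) * η := by
      intro i k
      have hs' := im_lgc D hL s κ hs k
      rw [← hθ] at hs'
      have e1 : (((q : ℝ) * s i * κ : ℝ) : ℂ) =
          ∑ j, (((q : ℝ) * (s i * s j / 2) + (q : ℝ) * (s j * s i / 2) : ℝ) : ℂ) * D.lgc j k +
          (((q : ℝ) * (-s i * θ / (2 * Real.pi)) : ℝ) : ℂ) * (2 * Real.pi * Complex.I) * chi k := by
        have e2 : ∑ j, (((q : ℝ) * (s i * s j / 2) + (q : ℝ) * (s j * s i / 2) : ℝ) : ℂ) * D.lgc j k
            = ((q : ℝ) * s i : ℝ) * ∑ j, (s j : ℂ) * D.lgc j k := by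
          rw [Finset.mul_sum]
          refine Finset.sum_congr rfl fun j _ => ?_
          push_cast
          ring
        rw [e2, hs']
        have hpi' : (Real.pi : ℂ) ≠ 0 := by exact_mod_cast hpi.ne'
        push_cast
        field_simp
        ring
      unfold FieldData.muc
      change ‖_ + _ * _ * chi k - _‖ ≤ _
      rw [e1]
      have e3 : (∑ j, ((((m (Sum.inl (i, j)) + m (Sum.inl (j, i)) : ℤ) : ℝ)) : ℂ) * D.lgc j k +
          (((m (Sum.inr i) : ℤ) : ℝ) : ℂ) * (2 * Real.pi * Complex.I) * chi k) -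
          (∑ j, (((q : ℝ) * (s i * s j / 2) + (q : ℝ) * (s j * s i / 2) : ℝ) : ℂ) * D.lgc j k +
          (((q : ℝ) * (-s i * θ / (2 * Real.pi)) : ℝ) : ℂ) * (2 * Real.pi * Complex.I) * chi k)
          = ∑ j, ((((m (Sum.inl (i, j)) : ℝ) - (q : ℝ) * (s i * s j / 2)) +
              ((m (Sum.inl (j, i)) : ℝ) - (q : ℝ) * (s j * s i / 2)) : ℝ) : ℂ) * D.lgc j k +
            (((m (Sum.inr i) : ℝ) - (q : ℝ) * (-s i * θ / (2 * Real.pi)) : ℝ) : ℂ) *
              (2 * Real.pi * Complex.I) * chi k := by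
        rw [add_sub_add_comm, ← Finset.sum_sub_distrib]
        congr 1
        · refine Finset.sum_congr rfl fun j _ => ?_
          push_cast
          ring
        · push_cast
          ring
      rw [e3]
      refine (norm_add_le _ _).trans ?_
      have n1 : ‖∑ j, ((((m (Sum.inl (i, j)) : ℝ) - (q : ℝ) * (s i * s j / 2)) +
              ((m (Sum.inl (j, i)) : ℝ) - (q : ℝ) * (s j * s i / 2)) : ℝ) : ℂ) * D.lgc j k‖ ≤
          8 * M * η := by
        refine (norm_sum_le _ _).trans ?_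
        calc ∑ j, ‖((((m (Sum.inl (i, j)) : ℝ) - (q : ℝ) * (s i * s j / 2)) +
              ((m (Sum.inl (j, i)) : ℝ) - (q : ℝ) * (s j * s i / 2)) : ℝ) : ℂ) * D.lgc j k‖
            ≤ ∑ _j : Fin 4, (2 * η) * M := by
              refine Finset.sum_le_sum fun j _ => ?_
              rw [norm_mul]
              refine mul_le_mul ?_ (hM j k) (norm_nonneg _) (by positivity)
              rw [Complex.norm_real, Real.norm_eq_abs]
              refine (abs_add_le _ _).trans ?_
              have h1 := hmC i j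
              have h2 := hmC j i
              rw [abs_sub_comm] at h1 h2
              linarith
          _ = 8 * M * η := by simp; ring
      have n2 : ‖(((m (Sum.inr i) : ℝ) - (q : ℝ) * (-s i * θ / (2 * Real.pi)) : ℝ) : ℂ) *
              (2 * Real.pi * Complex.I) * chi k‖ ≤ 2 * Real.pi * η := by
        rw [norm_mul, norm_mul, Complex.norm_real, Real.norm_eq_abs]
        have c1 : ‖(2 * Real.pi * Complex.I : ℂ)‖ = 2 * Real.pi := by
          simp [abs_of_pos hpi]
        have c2 : ‖chi k‖ ≤ 1 := by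
          unfold chi
          split_ifs <;> simp
        rw [c1]
        have h1 := hmr i
        rw [abs_sub_comm] at h1
        calc |(m (Sum.inr i) : ℝ) - (q : ℝ) * (-s i * θ / (2 * Real.pi))| * (2 * Real.pi) * ‖chi k‖
            ≤ η * (2 * Real.pi) * 1 := by
              refine mul_le_mul ?_ c2 (norm_nonneg _) (by positivity)
              exact mul_le_mul_of_nonneg_right h1.le (by positivity)
          _ = 2 * Real.pi * η := by ring
      linarith
    refine (ev_norm _ _ hb _).trans_lt ?_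
    have : 8 * ((8 * M + 2 * Real.pi) * η) = c * η := by rw [hc]; ring
    rw [this]
    exact hη2

end Pool.Agent.W249.CLSMALL

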