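import Mathlib

set_option autoImplicit false

/-!
Counting polynomials of bounded degree over a finite field: divisibility by coprime moduli is
independent, and a Chebyshev bound.
-/

namespace Pool.Agent.W249.EF

open Polynomial Finset
open scoped Classical
set_option linter.unusedSectionVars false

variable {K : Type} [Field K] [Fintype K] [DecidableEq K]

/-- The finite set of polynomials of degree `< N`. -/
noncomputable def PF (K : Type) [Field K] [Fintype K] [DecidableEq K] (N : ℕ) : Finset K[X] :=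
  (Finset.univ : Finset (Fin N → K)).map
    ((degreeLTEquiv K N).symm.toEquiv.toEmbedding.trans (Function.Embedding.subtype _))

theorem mem_PF {N : ℕ} {f : K[X]} : f ∈ PF K N ↔ f.degree < N := by
  unfold PF
  simp only [Finset.mem_map, Finset.mem_univ, true_and]
  constructor
  · rintro ⟨c, rfl⟩
    exact mem_degreeLT.1 ((degreeLTEquiv K N).symm c).2
  · intro h
    refine ⟨degreeLTEquiv K N ⟨f, mem_degreeLT.2 h⟩, ?_⟩
    simp

theorem card_PF (N : ℕ) : (PF K N).card = Fintype.card K ^ N := by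
  unfold PF
  rw [Finset.card_map, Finset.card_univ, Fintype.card_fun, Fintype.card_fin]

theorem card_dvd {N : ℕ} {D : K[X]} (hD : D.Monic) (h : D.natDegree ≤ N) :
    ((PF K N).filter (fun f => D ∣ f)).card = Fintype.card K ^ (N - D.natDegree) := by
  rw [← card_PF]
  symm
  apply Finset.card_bij (fun f _ => D * f)
  · intro f hf
    rw [mem_PF] at hf
    rw [Finset.mem_filter, mem_PF]
    refine ⟨?_, dvd_mul_right _ _⟩
    by_cases hf0 : f = 0
    · subst hf0
      simp only [mul_zero, degree_zero]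
      exact WithBot.bot_lt_coe N
    · have h1 : f.natDegree < N - D.natDegree := (natDegree_lt_iff_degree_lt hf0).2 hf
      have hne : D * f ≠ 0 := mul_ne_zero hD.ne_zero hf0
      rw [← natDegree_lt_iff_degree_lt hne, natDegree_mul hD.ne_zero hf0]
      omega
  · intro f _ g _ hfg
    exact mul_left_cancel₀ hD.ne_zero hfg
  · intro g hg
    rw [Finset.mem_filter, mem_PF] at hg
    obtain ⟨hg1, f, rfl⟩ := hg
    refine ⟨f, ?_, rfl⟩
    rw [mem_PF]
    by_cases hf0 : f = 0
    · subst hf0
      simp only [degree_zero]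
      exact WithBot.bot_lt_coe _
    · have hne : D * f ≠ 0 := mul_ne_zero hD.ne_zero hf0
      rw [← natDegree_lt_iff_degree_lt hne, natDegree_mul hD.ne_zero hf0] at hg1
      rw [← natDegree_lt_iff_degree_lt hf0]
      omega

/-- the norm of a polynomial, as a real number -/
noncomputable def nm (D : K[X]) : ℝ := (Fintype.card K : ℝ) ^ D.natDegree

theorem card_pos' : (0 : ℝ) < (Fintype.card K : ℝ) := by
  exact_mod_cast Fintype.card_pos

theorem nm_pos (D : K[X]) : 0 < nm D := pow_pos card_pos' _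

theorem card_dvd' {N : ℕ} {D : K[X]} (hD : D.Monic) (h : D.natDegree ≤ N) :
    (((PF K N).filter (fun f => D ∣ f)).card : ℝ) = (Fintype.card K : ℝ) ^ N * (nm D)⁻¹ := by
  rw [card_dvd hD h, nm]
  push_cast
  rw [pow_sub₀ _ card_pos'.ne' h]

/-- indicator of divisibility -/
noncomputable def ind (D f : K[X]) : ℝ := by
  classical
  exact if D ∣ f then 1 else 0

theorem sum_ind {N : ℕ} {D : K[X]} (hD : D.Monic) (h : D.natDegree ≤ N) :
    ∑ f ∈ PF K N, ind D f = (Fintype.card K : ℝ) ^ N * (nm D)⁻¹ := by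
  classical
  rw [← card_dvd' hD h]
  unfold ind
  rw [Finset.sum_ite, Finset.sum_const_zero, add_zero, Finset.sum_const, nsmul_eq_mul, mul_one]

theorem ind_mul {D E : K[X]} (h : IsCoprime D E) (f : K[X]) :
    ind D f * ind E f = ind (D * E) f := by
  classical
  unfold ind
  by_cases h1 : D ∣ f
  · by_cases h2 : E ∣ f
    · rw [if_pos h1, if_pos h2, if_pos (h.mul_dvd h1 h2), mul_one]
    · rw [if_neg h2, mul_zero, if_neg]
      intro h3
      exact h2 ((dvd_mul_left _ _).trans h3)
  · rw [if_neg h1, zero_mul, if_neg]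
    intro h3
    exact h1 ((dvd_mul_right _ _).trans h3)

/-- `P` divides `f` exactly once -/
noncomputable def av (P f : K[X]) : ℝ := ind P f - ind (P ^ 2) f

/-- the density of polynomials divisible by `P` exactly once -/
noncomputable def mu (P : K[X]) : ℝ := (nm P)⁻¹ - (nm (P ^ 2))⁻¹

theorem av_sq (P f : K[X]) : av P f ^ 2 = av P f := by
  classical
  unfold av ind
  by_cases h1 : P ∣ f
  · by_cases h2 : P ^ 2 ∣ f
    · simp [h1, h2]
    · simp [h1, h2]
  · have h2 : ¬ P ^ 2 ∣ f := fun h => h1 ((dvd_pow_self P two_ne_zero).trans h)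
    simp [h1, h2]

theorem av_eq_zero_iff (P f : K[X]) : av P f = 0 ↔ (P ∣ f → P ^ 2 ∣ f) := by
  classical
  unfold av ind
  by_cases h1 : P ∣ f
  · by_cases h2 : P ^ 2 ∣ f
    · simp [h1, h2]
    · simp [h1, h2]
  · have h2 : ¬ P ^ 2 ∣ f := fun h => h1 ((dvd_pow_self P two_ne_zero).trans h)
    simp [h1, h2]

theorem sum_av {N : ℕ} {P : K[X]} (hP : P.Monic) (h : 2 * P.natDegree ≤ N) :
    ∑ f ∈ PF K N, av P f = (Fintype.card K : ℝ) ^ N * mu P := by
  unfold av mu
  rw [Finset.sum_sub_distrib, sum_ind hP (by omega), sum_ind (hP.pow 2) (by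
    rw [natDegree_pow]; omega)]
  ring

theorem nm_mul {D E : K[X]} (hD : D.Monic) (hE : E.Monic) : nm (D * E) = nm D * nm E := by
  unfold nm
  rw [hD.natDegree_mul hE, pow_add]

theorem sum_av_mul {N : ℕ} {P Q : K[X]} (hP : P.Monic) (hQ : Q.Monic) (hc : IsCoprime P Q)
    (h : 2 * P.natDegree + 2 * Q.natDegree ≤ N) :
    ∑ f ∈ PF K N, av P f * av Q f = (Fintype.card K : ℝ) ^ N * (mu P * mu Q) := by
  have h1 : ∀ f : K[X], av P f * av Q f =
      ind (P * Q) f - ind (P * Q ^ 2) f - ind (P ^ 2 * Q) f + ind (P ^ 2 * Q ^ 2) f := by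
    intro f
    unfold av
    rw [← ind_mul hc, ← ind_mul hc.pow_right, ← ind_mul hc.pow_left, ← ind_mul hc.pow]
    ring
  simp only [h1]
  rw [Finset.sum_add_distrib, Finset.sum_sub_distrib, Finset.sum_sub_distrib]
  have hP2 := hP.pow 2
  have hQ2 := hQ.pow 2
  rw [sum_ind (hP.mul hQ), sum_ind (hP.mul hQ2), sum_ind (hP2.mul hQ), sum_ind (hP2.mul hQ2),
    nm_mul hP hQ, nm_mul hP hQ2, nm_mul hP2 hQ, nm_mul hP2 hQ2]
  · unfold mu
    field_simp
    ring
  · rw [hP2.natDegree_mul hQ2, natDegree_pow, natDegree_pow]; omega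
  · rw [hP2.natDegree_mul hQ, natDegree_pow]; omega
  · rw [hP.natDegree_mul hQ2, natDegree_pow]; omega
  · rw [hP.natDegree_mul hQ]; omega

/-- Chebyshev bound: few polynomials are divisible exactly once by no member of a large family of
irreducibles. -/
theorem cheb {N : ℕ} (S : Finset K[X]) (hS : ∀ P ∈ S, P.Monic ∧ Irreducible P)
    (hN : ∀ P ∈ S, 4 * P.natDegree ≤ N) (hpos : 0 < ∑ P ∈ S, mu P) :
    (((PF K N).filter (fun f => ∀ P ∈ S, P ∣ f → P ^ 2 ∣ f)).card : ℝ) * (∑ P ∈ S, mu P) ≤
      (Fintype.card K : ℝ) ^ N := by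
  set L := ∑ P ∈ S, mu P with hL
  set T := (PF K N).filter (fun f => ∀ P ∈ S, P ∣ f → P ^ 2 ∣ f) with hT
  have hq : (0 : ℝ) < (Fintype.card K : ℝ) ^ N := pow_pos card_pos' _
  -- second moment
  have h1 : ∑ f ∈ PF K N, (∑ P ∈ S, av P f) ^ 2 ≤ (Fintype.card K : ℝ) ^ N * (L ^ 2 + L) := by
    have h2 : ∀ f : K[X], (∑ P ∈ S, av P f) ^ 2 = ∑ P ∈ S, ∑ Q ∈ S, av P f * av Q f := by
      intro f
      rw [sq, Finset.sum_mul_sum]
    simp only [h2]
    rw [Finset.sum_comm]
    have h3 : ∀ P ∈ S, ∑ f ∈ PF K N, ∑ Q ∈ S, av P f * av Q f ≤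
        (Fintype.card K : ℝ) ^ N * (mu P * L + mu P) := by
      intro P hP
      rw [Finset.sum_comm]
      have h4 : ∀ Q ∈ S, ∑ f ∈ PF K N, av P f * av Q f ≤
          (Fintype.card K : ℝ) ^ N * (mu P * mu Q + if Q = P then mu P else 0) := by
        intro Q hQ
        by_cases hQP : Q = P
        · subst hQP
          rw [if_pos rfl]
          have h5 : ∑ f ∈ PF K N, av Q f * av Q f = (Fintype.card K : ℝ) ^ N * mu Q := by
            rw [← sum_av (hS Q hQ).1 (by have := hN Q hQ; omega)]
            apply Finset.sum_congr rfl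
            intro f _
            rw [← sq, av_sq]
          rw [h5]
          apply mul_le_mul_of_nonneg_left _ hq.le
          nlinarith [mul_self_nonneg (mu Q)]
        · rw [if_neg hQP, add_zero]
          apply le_of_eq
          apply sum_av_mul (hS P hP).1 (hS Q hQ).1
          · have := (hS P hP).2
            rw [this.coprime_iff_not_dvd]
            intro hd
            apply hQP
            symm
            exact eq_of_monic_of_associated (hS P hP).1 (hS Q hQ).1
              (this.associated_of_dvd (hS Q hQ).2 hd)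
          · have := hN P hP
            have := hN Q hQ
            omega
      refine (Finset.sum_le_sum h4).trans ?_
      rw [← Finset.mul_sum, Finset.sum_add_distrib, ← Finset.mul_sum, Finset.sum_ite_eq' S P]
      rw [if_pos hP]
    refine (Finset.sum_le_sum h3).trans ?_
    rw [← Finset.mul_sum, Finset.sum_add_distrib, ← Finset.sum_mul]
    rw [← hL]
    apply le_of_eq
    ring
  have h2 : ∑ f ∈ PF K N, (∑ P ∈ S, av P f) = (Fintype.card K : ℝ) ^ N * L := by
    rw [Finset.sum_comm, hL, Finset.mul_sum]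
    apply Finset.sum_congr rfl
    intro P hP
    exact sum_av (hS P hP).1 (by have := hN P hP; omega)
  have h3 : ∑ f ∈ PF K N, ((∑ P ∈ S, av P f) - L) ^ 2 ≤ (Fintype.card K : ℝ) ^ N * L := by
    have h4 : ∀ f : K[X], ((∑ P ∈ S, av P f) - L) ^ 2 =
        (∑ P ∈ S, av P f) ^ 2 - 2 * L * (∑ P ∈ S, av P f) + L ^ 2 := by
      intro f; ring
    simp only [h4]
    rw [Finset.sum_add_distrib, Finset.sum_sub_distrib, ← Finset.mul_sum, h2, Finset.sum_const,
      card_PF, nsmul_eq_mul]
    push_cast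
    nlinarith [h1]
  have h4 : (T.card : ℝ) * L ^ 2 ≤ ∑ f ∈ PF K N, ((∑ P ∈ S, av P f) - L) ^ 2 := by
    calc (T.card : ℝ) * L ^ 2 = ∑ f ∈ T, L ^ 2 := by
          rw [Finset.sum_const, nsmul_eq_mul]
      _ = ∑ f ∈ T, ((∑ P ∈ S, av P f) - L) ^ 2 := by
          apply Finset.sum_congr rfl
          intro f hf
          rw [hT, Finset.mem_filter] at hf
          have : ∑ P ∈ S, av P f = 0 :=
            Finset.sum_eq_zero (fun P hP => (av_eq_zero_iff P f).2 (hf.2 P hP))
          rw [this]
          ring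
      _ ≤ _ := by
          apply Finset.sum_le_sum_of_subset_of_nonneg (Finset.filter_subset _ _)
          intro f _ _
          positivity
  have h5 : (T.card : ℝ) * L * L ≤ (Fintype.card K : ℝ) ^ N * L := by
    calc (T.card : ℝ) * L * L = (T.card : ℝ) * L ^ 2 := by ring
      _ ≤ _ := h4.trans h3
  exact le_of_mul_le_mul_right h5 hpos

end Pool.Agent.W249.EF
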