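import Pool.Agent.W455.EM.Stm

/-!
# Project EM, part CNT
-/

namespace Pool.Agent.W249.EMCNT

open Finset Pool.Agent.W455.EM

theorem main : S_CNT := by
  classical
  intro n W w j T
  set B := (W.powersetCard j).filter (fun S => T ≤ ∑ v ∈ S, w v) with hB
  set L : Finset (Fin j → {x // x ∈ W}) := univ.filter (fun t => ∑ i, w (t i).1 < T) with hL
  set A : Finset (Fin j → {x // x ∈ W}) := univ.filter (fun t => ¬ (∑ i, w (t i).1 < T)) with hA
  have hNN : NN (fun v : {x // x ∈ W} => w v.1) j T = (L.card : ℝ) := by
    unfold NN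
    rw [Finset.sum_boole]
  have hcard : (W.card : ℝ) ^ j = (L.card : ℝ) + (A.card : ℝ) := by
    have h1 : L.card + A.card = (univ : Finset (Fin j → {x // x ∈ W})).card := by
      rw [hL, hA]
      exact Finset.card_filter_add_card_filter_not _
    have h2 : (univ : Finset (Fin j → {x // x ∈ W})).card = W.card ^ j := by
      rw [Finset.card_univ, Fintype.card_fun, Fintype.card_coe, Fintype.card_fin]
    rw [h2] at h1
    exact_mod_cast h1.symm
  rw [hNN, hcard, add_sub_cancel_left]
  let g : (Fin j → {x // x ∈ W}) → Finset (Fin n) := fun t => univ.image (fun i => (t i).1)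
  set A' := A.filter (fun t => g t ∈ B) with hA'
  have h3 : A'.card = ∑ S ∈ B, (A'.filter (fun t => g t = S)).card :=
    Finset.card_eq_sum_card_fiberwise (fun t ht => (Finset.mem_filter.1 ht).2)
  have h4 : ∀ S ∈ B, j.factorial ≤ (A'.filter (fun t => g t = S)).card := by
    intro S hS
    have hS' := hS
    rw [hB, Finset.mem_filter, Finset.mem_powersetCard] at hS'
    obtain ⟨⟨hSW, hSj⟩, hST⟩ := hS'
    have e0 : Fin j ≃ {x // x ∈ S} := (S.equivFinOfCardEq hSj).symm
    have h5 : Fintype.card (Fin j ≃ {x // x ∈ S}) = j.factorial := by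
      rw [Fintype.card_equiv e0, Fintype.card_fin]
    rw [← h5, ← Finset.card_univ]
    refine Finset.card_le_card_of_injOn
      (fun σ => fun i => (⟨(σ i).1, hSW (σ i).2⟩ : {x // x ∈ W})) ?_ ?_
    · intro σ _
      have himg : g (fun i => (⟨(σ i).1, hSW (σ i).2⟩ : {x // x ∈ W})) = S := by
        ext x
        simp only [g, Finset.mem_image, Finset.mem_univ, true_and]
        constructor
        · rintro ⟨i, rfl⟩
          exact (σ i).2
        · intro hx
          exact ⟨σ.symm ⟨x, hx⟩, by simp⟩
      have hsum : ∑ i, w (σ i).1 = ∑ v ∈ S, w v := by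
        rw [Equiv.sum_comp σ (fun v : {x // x ∈ S} => w v.1)]
        exact Finset.sum_coe_sort S w
      simp only [Finset.coe_filter, Set.mem_setOf_eq, hA', hA, Finset.mem_filter,
        Finset.mem_univ, true_and, himg]
      refine ⟨⟨?_, hS⟩, trivial⟩
      rw [hsum]
      exact not_lt.2 hST
    · intro σ _ τ _ h
      ext i
      have h1 := congrFun h i
      simp only [Subtype.mk.injEq] at h1
      exact congrArg Fin.val h1
  have h6 : B.card * j.factorial ≤ A.card := by
    calc B.card * j.factorial = ∑ _S ∈ B, j.factorial := by rw [Finset.sum_const, smul_eq_mul]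
      _ ≤ ∑ S ∈ B, (A'.filter (fun t => g t = S)).card := Finset.sum_le_sum h4
      _ = A'.card := h3.symm
      _ ≤ A.card := Finset.card_filter_le _ _
  exact_mod_cast h6

end Pool.Agent.W249.EMCNT

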