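import Pool.Agent.W894.HT.Ex

/-!
Project HT (helper894), part XHP: Hamiltonian paths as a word sum.
-/

set_option autoImplicit false

namespace Pool.Agent.W249.HTXhp

open Pool.Agent.W894.HT

/-- the spacers are isolated -/
lemma Fb_Z {n M : ℕ} {G : ℕ → ℕ → Bool} {z : ℕ} (hz : n < z ∧ z ≤ n + M) (u : ℕ) :
    Fb n M G u z = false ∧ Fb n M G z u = false := by
  have h1 : ¬ (1 ≤ u ∧ u ≤ n ∧ n + M < z ∧ z ≤ 2 * n + M) := by omega
  have h2 : ¬ (1 ≤ z ∧ z ≤ n ∧ n + M < u ∧ u ≤ 2 * n + M) := by omega
  unfold Fb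
  rw [decide_eq_false h1, decide_eq_false h2]
  simp

lemma Fb_zero {n M : ℕ} {G : ℕ → ℕ → Bool} (v : ℕ) : Fb n M G 0 v = false := by
  have h1 : ¬ (1 ≤ 0 ∧ 0 ≤ n ∧ n + M < v ∧ v ≤ 2 * n + M) := by omega
  have h2 : ¬ (1 ≤ v ∧ v ≤ n ∧ n + M < 0 ∧ 0 ≤ 2 * n + M) := by omega
  unfold Fb
  rw [decide_eq_false h1, decide_eq_false h2]
  simp

open Classical in
/-- counting lists as a sum over the permutations -/
theorem cardSum (W : List ℕ) (hW : W.Nodup) (P : List ℕ → Prop) :
    ((Nat.card {l : List ℕ // l.Perm W ∧ P l} : ℕ) : ℤ) =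
      (W.permutations'.map fun l => if P l then (1 : ℤ) else 0).sum := by
  have h1 : Nat.card {l : List ℕ // l.Perm W ∧ P l} =
      (W.permutations'.toFinset.filter fun l => P l).card := by
    refine Nat.subtype_card _ ?_
    intro l
    rw [Finset.mem_filter, List.mem_toFinset, List.mem_permutations']
  rw [h1, Finset.card_filter, Nat.cast_sum,
    ← List.sum_toFinset _
      ((List.permutations_perm_permutations' W).nodup_iff.1 (List.nodup_permutations W hW))]
  refine Finset.sum_congr rfl ?_
  intro l _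
  split_ifs
  · exact Nat.cast_one
  · exact Nat.cast_zero

open Classical in
theorem PSchain (hCHAIN : S_CHAIN) (F : ℕ → ℕ → Bool) (W : List ℕ) (x : ℕ)
    (hW : (x :: W).Nodup) :
    PS (A := ℤ) (phi F) (fun _ _ => 1) x W =
      ((Nat.card {l : List ℕ // l.Perm W ∧ (x :: l).IsChain (arc F)} : ℕ) : ℤ) := by
  rw [cardSum W (List.nodup_cons.1 hW).2 fun l => (x :: l).IsChain (arc F)]
  unfold PS
  refine congrArg List.sum (List.map_congr_left ?_)
  intro l hl
  have h1 : l.Perm W := List.mem_permutations'.1 hl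
  refine (hCHAIN ℤ F l x (fun _ => 0) ((h1.cons x).nodup_iff.2 hW)).trans ?_
  congr 1

/-- the two last steps agree -/
lemma Rr_eq {n M : ℕ} (hM : 1 ≤ M) (φ : ℕ → ℕ → ℤ) (l : List ℕ) :
    ∀ (x : ℕ) (κ : ℕ → ℕ), (x ≤ n ∨ n + M < x) → (∀ u ∈ l, u ≤ n ∨ n + M < u) →
      (∀ z, n < z → z ≤ n + M → κ z = κ (n + 1)) →
      Rr φ (finH (List.range' (n + 1) M)) x l κ = Rr φ (finX n M) x l κ := by
  induction l with
  | nil =>
    intro x κ hx _ hκ
    change finH (List.range' (n + 1) M) x κ = finX n M x κ
    unfold finH finX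
    have h1 : (List.range' (n + 1) M).map (fun z => ((κ z + low x z : ℕ) : ℤ)) =
        (List.range' (n + 1) M).map (fun _ => ((κ (n + 1) + low x (n + 1) : ℕ) : ℤ)) := by
      refine List.map_congr_left fun z hz => ?_
      rw [List.mem_range'_1] at hz
      have h2 : low x z = low x (n + 1) := by
        unfold low
        by_cases h : x ≤ n
        · rw [if_pos (by omega), if_pos (by omega)]
        · rw [if_neg (by omega), if_neg (by omega)]
      rw [h2, hκ z (by omega) (by omega)]
    rw [h1, List.map_const', List.prod_replicate, List.length_range']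
  | cons v l ih =>
    intro x κ hx hl hκ
    have hv := hl v (List.mem_cons_self ..)
    have hl' : ∀ u ∈ l, u ≤ n ∨ n + M < u := fun u hu => hl u (List.mem_cons_of_mem _ hu)
    change (if x < v then Rr φ (finH (List.range' (n + 1) M)) v l (fun z => κ z + itv x v z)
        else 0) + φ x v * Rr φ (finH (List.range' (n + 1) M)) v l κ =
      (if x < v then Rr φ (finX n M) v l (fun z => κ z + itv x v z) else 0) +
        φ x v * Rr φ (finX n M) v l κ
    rw [ih v κ hv hl' hκ, ih v (fun z => κ z + itv x v z) hv hl' ?_]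
    intro z hz1 hz2
    change κ z + itv x v z = κ (n + 1) + itv x v (n + 1)
    rw [hκ z hz1 hz2]
    congr 1
    unfold itv
    by_cases h : x < z ∧ z < v
    · rw [if_pos h, if_pos (by omega)]
    · rw [if_neg h, if_neg (by omega)]

theorem main (h1 : S_CHAIN) (h2 : S_SPACE) : S_XHP := by
  intro n M G hM
  have hR : List.range' 1 (2 * n + M) =
      List.range' 1 n ++ (List.range' (n + 1) M ++ List.range' (n + M + 1) n) := by
    rw [show n + M + 1 = (n + 1) + M from by ring, List.range'_append_1,
      show n + 1 = 1 + n from by ring, List.range'_append_1]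
    congr 1
    ring
  have hperm : (List.range' (n + 1) M ++ (List.range' 1 n ++ List.range' (n + M + 1) n)).Perm
      (List.range' 1 (2 * n + M)) := by
    rw [hR, ← List.append_assoc, ← List.append_assoc]
    exact List.perm_append_comm.append_right _
  have hnd : (List.range' (n + 1) M ++ (List.range' 1 n ++ List.range' (n + M + 1) n)).Nodup :=
    hperm.nodup_iff.2 (List.nodup_range' ..)
  have h0 : 0 ∉ List.range' (n + 1) M ++ (List.range' 1 n ++ List.range' (n + M + 1) n) := by
    intro h
    have h3 := hperm.mem_iff.1 h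
    rw [List.mem_range'_1] at h3
    omega
  have hnd0 : (0 :: (List.range' (n + 1) M ++
      (List.range' 1 n ++ List.range' (n + M + 1) n))).Nodup := List.nodup_cons.2 ⟨h0, hnd⟩
  have e1 : PS (phi (Fb n M G)) (finX n M) 0 (List.range' 1 n ++ List.range' (n + M + 1) n) =
      PS (phi (Fb n M G)) (finH (List.range' (n + 1) M)) 0
        (List.range' 1 n ++ List.range' (n + M + 1) n) := by
    unfold PS
    refine congrArg List.sum (List.map_congr_left ?_)
    intro l hl
    have h3 : l.Perm (List.range' 1 n ++ List.range' (n + M + 1) n) := List.mem_permutations'.1 hl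
    refine (Rr_eq hM (phi (Fb n M G)) l 0 (fun _ => 0) (Or.inl (Nat.zero_le n)) ?_
      (fun _ _ _ => rfl)).symm
    intro u hu
    have h4 := h3.mem_iff.1 hu
    rw [List.mem_append, List.mem_range'_1, List.mem_range'_1] at h4
    omega
  rw [e1, ← h2 ℤ (phi (Fb n M G)) (List.range' (n + 1) M)
    (List.range' 1 n ++ List.range' (n + M + 1) n) 0 ?_ hnd h0, PSchain h1 _ _ 0 hnd0]
  · congr 1
    refine Nat.card_congr (Equiv.subtypeEquivRight ?_)
    intro l
    constructor
    · rintro ⟨g1, g2⟩
      refine ⟨g1.trans hperm.symm, ?_⟩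
      cases l with
      | nil => exact List.isChain_singleton _
      | cons v l =>
        rw [List.isChain_cons_cons]
        refine ⟨?_, g2⟩
        have hv : v ∈ List.range' 1 (2 * n + M) := g1.mem_iff.1 (List.mem_cons_self ..)
        rw [List.mem_range'_1] at hv
        exact Or.inl ⟨by omega, Fb_zero v⟩
    · rintro ⟨g1, g2⟩
      exact ⟨g1.trans hperm, g2.tail⟩
  · intro z hz u
    rw [List.mem_range'_1] at hz
    obtain ⟨g1, g2⟩ := Fb_Z (n := n) (M := M) (G := G) (z := z) (by omega) u
    unfold phi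
    rw [g1, g2]
    exact ⟨rfl, rfl⟩

end Pool.Agent.W249.HTXhp

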